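import Mathlib

set_option autoImplicit false

open MeasureTheory Set Filter Topology

namespace Pool.Agent.LibHelper17.Dirichlet

/-- Green's identity for a compactly supported `C¹` function `g` and a `C²` function `φ`. -/
theorem green {N : ℕ} {g φ : EuclideanSpace ℝ (Fin N) → ℝ} (hg : ContDiff ℝ 1 g)
    (hgs : HasCompactSupport g) (hφ : ContDiff ℝ 2 φ) :
    ∫ x, g x * Laplacian.laplacian φ x = - ∫ x, inner ℝ (gradient g x) (gradient φ x) := by
  classical
  set b := EuclideanSpace.basisFun (Fin N) ℝ with hb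
  have hdφ : ContDiff ℝ 1 (fderiv ℝ φ) := hφ.fderiv_right (by norm_num)
  have hdφv : ∀ v, ContDiff ℝ 1 (fun y => fderiv ℝ φ y v) := fun v => hdφ.clm_apply contDiff_const
  have hgc : Continuous g := hg.continuous
  have hdg : Continuous (fderiv ℝ g) := hg.continuous_fderiv (by norm_num)
  have hlap : ∀ x, Laplacian.laplacian φ x
      = ∑ i, fderiv ℝ (fun y => fderiv ℝ φ y (b i)) x (b i) := by
    intro x
    rw [InnerProductSpace.laplacian_eq_iteratedFDeriv_orthonormalBasis φ b]
    apply Finset.sum_congr rfl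
    intro i _
    rw [iteratedFDeriv_two_apply]
    simp only [Matrix.cons_val_zero, Matrix.cons_val_one]
    rw [fderiv_clm_apply (hdφ.differentiable (by norm_num) x) (differentiableAt_const _)]
    simp
  have hinner : ∀ x, inner ℝ (gradient g x) (gradient φ x)
      = ∑ i, fderiv ℝ g x (b i) * fderiv ℝ φ x (b i) := by
    intro x
    rw [← OrthonormalBasis.sum_inner_mul_inner b]
    apply Finset.sum_congr rfl
    intro i _
    rw [inner_gradient_left, inner_gradient_right]
    simp
  have hs1 : ∀ v, HasCompactSupport (fun x => fderiv ℝ g x v) := by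
    intro v
    exact hgs.fderiv_apply (𝕜 := ℝ) v
  have hint1 : ∀ i, Integrable (fun x => g x * fderiv ℝ (fun y => fderiv ℝ φ y (b i)) x (b i)) := by
    intro i
    apply Continuous.integrable_of_hasCompactSupport
    · exact hgc.mul (((hdφv (b i)).continuous_fderiv (by norm_num)).clm_apply continuous_const)
    · exact hgs.mul_right
  have hint2 : ∀ i, Integrable (fun x => fderiv ℝ g x (b i) * fderiv ℝ φ x (b i)) := by
    intro i
    apply Continuous.integrable_of_hasCompactSupport
    · exact (hdg.clm_apply continuous_const).mul (hdφv (b i)).continuous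
    · exact (hs1 (b i)).mul_right
  have hint3 : ∀ i, Integrable (fun x => g x * fderiv ℝ φ x (b i)) := by
    intro i
    apply Continuous.integrable_of_hasCompactSupport
    · exact hgc.mul (hdφv (b i)).continuous
    · exact hgs.mul_right
  have key : ∀ i, ∫ x, g x * fderiv ℝ (fun y => fderiv ℝ φ y (b i)) x (b i)
      = - ∫ x, fderiv ℝ g x (b i) * fderiv ℝ φ x (b i) := by
    intro i
    exact integral_mul_fderiv_eq_neg_fderiv_mul_of_integrable (hint2 i) (hint1 i) (hint3 i)
      (fun x _ => hg.differentiable (by norm_num) x)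
      (fun x _ => (hdφv (b i)).differentiable (by norm_num) x)
  calc ∫ x, g x * Laplacian.laplacian φ x
      = ∫ x, ∑ i, g x * fderiv ℝ (fun y => fderiv ℝ φ y (b i)) x (b i) := by
        congr 1; ext x; rw [hlap, Finset.mul_sum]
    _ = ∑ i, ∫ x, g x * fderiv ℝ (fun y => fderiv ℝ φ y (b i)) x (b i) :=
        integral_finsetSum _ (fun i _ => hint1 i)
    _ = ∑ i, - ∫ x, fderiv ℝ g x (b i) * fderiv ℝ φ x (b i) :=
        Finset.sum_congr rfl (fun i _ => key i)
    _ = - ∫ x, ∑ i, fderiv ℝ g x (b i) * fderiv ℝ φ x (b i) := by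
        rw [Finset.sum_neg_distrib, integral_finsetSum _ (fun i _ => hint2 i)]
    _ = - ∫ x, inner ℝ (gradient g x) (gradient φ x) := by
        congr 2; ext x; rw [hinner]


/-- Ground state inequality (Barta, Jacobi): if `φ > 0` and `-Δφ = lam φ` in `Ω` then
`lam ∫ f² ≤ ∫ |∇f|²` for all compactly supported `f` in `Ω`. -/
theorem groundState {N : ℕ} {Ω : Set (EuclideanSpace ℝ (Fin N))}
    {φ : EuclideanSpace ℝ (Fin N) → ℝ} {lam : ℝ} (hφ : ContDiff ℝ 2 φ)
    (hpos : ∀ x ∈ Ω, 0 < φ x)
    (heig : ∀ x ∈ Ω, Laplacian.laplacian φ x = -(lam * φ x))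
    {f : EuclideanSpace ℝ (Fin N) → ℝ} (hf : ContDiff ℝ 1 f)
    (hfs : HasCompactSupport f) (hfΩ : tsupport f ⊆ Ω) :
    lam * ∫ x, f x ^ 2 ≤ ∫ x, ‖gradient f x‖ ^ 2 := by
  classical
  set g : EuclideanSpace ℝ (Fin N) → ℝ := fun x => f x ^ 2 / φ x with hgdef
  have hout : ∀ x, x ∉ Ω → f =ᶠ[𝓝 x] 0 := by
    intro x hx
    have : x ∉ tsupport f := fun h => hx (hfΩ h)
    exact notMem_tsupport_iff_eventuallyEq.1 this
  have hgout : ∀ x, x ∉ Ω → g =ᶠ[𝓝 x] 0 := by
    intro x hx
    filter_upwards [hout x hx] with y hy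
    simp [hgdef, hy]
  have hg : ContDiff ℝ 1 g := by
    rw [contDiff_iff_contDiffAt]
    intro x
    by_cases hx : x ∈ Ω
    · exact (hf.contDiffAt.pow 2).div (hφ.contDiffAt.of_le (by norm_num)) (hpos x hx).ne'
    · exact (contDiffAt_const (c := (0 : ℝ))).congr_of_eventuallyEq (hgout x hx)
  have hgs : HasCompactSupport g := by
    apply hfs.mono'
    intro x hx
    apply subset_tsupport
    rw [Function.mem_support] at hx ⊢
    intro h
    apply hx
    simp [hgdef, h]
  have h1 := green hg hgs hφ
  have h2 : ∀ x, g x * Laplacian.laplacian φ x = -(lam * f x ^ 2) := by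
    intro x
    by_cases hx : x ∈ Ω
    · rw [heig x hx]
      have := (hpos x hx).ne'
      simp only [hgdef]
      field_simp
    · have h3 : f x = 0 := (hout x hx).eq_of_nhds
      simp [hgdef, h3]
  have h3 : ∫ x, g x * Laplacian.laplacian φ x = - (lam * ∫ x, f x ^ 2) := by
    simp_rw [h2]
    rw [integral_neg, integral_const_mul]
  rw [h3] at h1
  have h4 : lam * ∫ x, f x ^ 2 = ∫ x, inner ℝ (gradient g x) (gradient φ x) := by linarith
  rw [h4]
  have hgradc : ∀ {h : EuclideanSpace ℝ (Fin N) → ℝ}, ContDiff ℝ 1 h →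
      Continuous (gradient h) := by
    intro h hh
    exact (InnerProductSpace.toDual ℝ _).symm.continuous.comp (hh.continuous_fderiv (by norm_num))
  have hgrads : ∀ {h : EuclideanSpace ℝ (Fin N) → ℝ}, HasCompactSupport h →
      HasCompactSupport (gradient h) := by
    intro h hh
    have := hh.fderiv (𝕜 := ℝ)
    exact this.comp_left (g := (InnerProductSpace.toDual ℝ _).symm) (by simp)
  apply integral_mono
  · apply Continuous.integrable_of_hasCompactSupport
    · exact (hgradc hg).inner (hgradc (hφ.of_le (by norm_num)))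
    · apply (hgrads hgs).mono
      intro x hx
      rw [Function.mem_support] at hx ⊢
      intro h
      apply hx
      simp [h]
  · apply Continuous.integrable_of_hasCompactSupport
    · exact ((hgradc hf).norm).pow 2
    · apply (hgrads hfs).mono
      intro x hx
      rw [Function.mem_support] at hx ⊢
      intro h
      apply hx
      simp [h]
  · intro x
    simp only
    by_cases hx : x ∈ Ω
    · have hφx := hpos x hx
      have hfd : HasFDerivAt f (fderiv ℝ f x) x :=
        (hf.differentiable (by norm_num) x).hasFDerivAt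
      have hφd : HasFDerivAt φ (fderiv ℝ φ x) x :=
        (hφ.differentiable (by norm_num) x).hasFDerivAt
      have hinvd : HasFDerivAt (fun y => (φ y)⁻¹) (-(φ x ^ 2)⁻¹ • fderiv ℝ φ x) x :=
        (hasDerivAt_inv hφx.ne').comp_hasFDerivAt x hφd
      have hgd := (hfd.pow 2).mul hinvd
      have hgd2 : fderiv ℝ g x = _ := hgd.fderiv
      rw [inner_gradient_left, hgd2]
      have e1 : fderiv ℝ φ x (gradient φ x) = ‖gradient φ x‖ ^ 2 := by
        rw [← inner_gradient_left, real_inner_self_eq_norm_sq]
      have e2 : fderiv ℝ f x (gradient φ x) = inner ℝ (gradient f x) (gradient φ x) := by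
        rw [← inner_gradient_left]
      have e3 : 0 ≤ ‖gradient f x - (f x / φ x) • gradient φ x‖ ^ 2 := by positivity
      rw [norm_sub_sq_real, inner_smul_right, norm_smul, mul_pow, Real.norm_eq_abs, sq_abs] at e3
      simp only [_root_.add_apply, _root_.smul_apply, smul_eq_mul,
        nsmul_eq_mul, Nat.cast_ofNat, Nat.add_one_sub_one, pow_one, e1, e2]
      have e4 : f x ^ 2 * (-(φ x ^ 2)⁻¹ * ‖gradient φ x‖ ^ 2)
          + (φ x)⁻¹ * (2 * f x * inner ℝ (gradient f x) (gradient φ x))
          = 2 * (f x / φ x * inner ℝ (gradient f x) (gradient φ x))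
            - (f x / φ x) ^ 2 * ‖gradient φ x‖ ^ 2 := by
        field_simp
        ring
      linarith
    · have h5 : gradient g x = 0 := by
        have := (hgout x hx).gradient_eq
        rw [this]
        exact gradient_const x 0
      rw [h5, inner_zero_left]
      positivity

end Pool.Agent.LibHelper17.Dirichlet
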