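import Pool.Agent.Lib_helper17.Dirichlet

set_option autoImplicit false

open MeasureTheory Set Filter Topology

namespace Pool.Agent.LibHelper17.Dirichlet

/-- A smooth cut-off of the identity. -/
theorem exists_cutoff {ε : ℝ} (hε : 0 < ε) :
    ∃ η : ℝ → ℝ, ContDiff ℝ (⊤ : ℕ∞) η ∧ (∀ s ≤ ε, η s = 0) ∧ (∀ s, 0 ≤ deriv η s) ∧
      (∀ s, deriv η s ≤ 1) ∧ (∀ s, 0 ≤ s → η s ≤ s) ∧ (∀ s, s - 2 * ε ≤ η s) ∧
      (∀ s, 0 ≤ η s) := by
  set θ : ℝ → ℝ := fun t => Real.smoothTransition (t / ε - 1) with hθ
  have hθs : ContDiff ℝ (⊤ : ℕ∞) θ := by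
    apply Real.smoothTransition.contDiff.comp
    fun_prop
  have hθc : Continuous θ := hθs.continuous
  have hθ0 : ∀ t, 0 ≤ θ t := fun t => Real.smoothTransition.nonneg _
  have hθ1 : ∀ t, θ t ≤ 1 := fun t => Real.smoothTransition.le_one _
  have hθz : ∀ t ≤ ε, θ t = 0 := by
    intro t ht
    apply Real.smoothTransition.zero_of_nonpos
    rw [sub_nonpos, div_le_one hε]
    exact ht
  have hθo : ∀ t, 2 * ε ≤ t → θ t = 1 := by
    intro t ht
    apply Real.smoothTransition.one_of_one_le
    rw [le_sub_iff_add_le, le_div_iff₀ hε]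
    linarith
  set η : ℝ → ℝ := fun s => ∫ t in (0 : ℝ)..s, θ t with hη
  have hd : ∀ s, HasDerivAt η (θ s) s := fun s => hθc.integral_hasStrictDerivAt 0 s |>.hasDerivAt
  have hde : deriv η = θ := by
    ext s
    exact (hd s).deriv
  have hdiff : Differentiable ℝ η := fun s => (hd s).differentiableAt
  have hmono : Monotone η := by
    apply monotone_of_deriv_nonneg hdiff
    intro s
    rw [hde]
    exact hθ0 s
  have hmono2 : Monotone (fun s => s - η s) := by
    apply monotone_of_deriv_nonneg (differentiable_id.sub hdiff)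
    intro s
    have : HasDerivAt (id - η) (1 - θ s) s := (hasDerivAt_id s).sub (hd s)
    rw [this.deriv]
    linarith [hθ1 s]
  have hz : ∀ s ≤ ε, η s = 0 := by
    intro s hs
    have h1 : EqOn θ (fun _ => 0) (uIcc 0 s) := by
      intro t ht
      apply hθz
      rcases le_total 0 s with h | h
      · rw [uIcc_of_le h] at ht; exact ht.2.trans hs
      · rw [uIcc_of_ge h] at ht; exact ht.2.trans hε.le
    simp only [hη]
    rw [intervalIntegral.integral_congr h1]
    simp
  refine ⟨η, ?_, hz, ?_, ?_, ?_, ?_, ?_⟩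
  · rw [contDiff_infty_iff_deriv]
    exact ⟨hdiff, by rw [hde]; exact hθs⟩
  · intro s; rw [hde]; exact hθ0 s
  · intro s; rw [hde]; exact hθ1 s
  · intro s hs
    have h1 := hmono2 hs
    have h2 : η 0 = 0 := hz 0 hε.le
    simp only [h2] at h1
    linarith
  · intro s
    rcases le_total s (2 * ε) with h | h
    · have h1 : 0 ≤ η s := by
        rcases le_total s ε with h' | h'
        · rw [hz s h']
        · rw [← hz ε le_rfl]; exact hmono h'
      linarith
    · have h1 : s - η s = 2 * ε - η (2 * ε) := by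
        have hc : ∀ u ∈ Icc (2 * ε) s, HasDerivAt (fun s => s - η s) 0 u := by
          intro u hu
          have : HasDerivAt (fun s => s - η s) (1 - θ u) u := (hasDerivAt_id u).sub (hd u)
          rwa [hθo u hu.1, sub_self] at this
        have hcont : ContinuousOn (fun s => s - η s) (Icc (2 * ε) s) :=
          fun u hu => (hc u hu).continuousAt.continuousWithinAt
        have := constant_of_has_deriv_right_zero hcont
          (fun u hu => (hc u ⟨hu.1, hu.2.le⟩).hasDerivWithinAt)
        exact this s ⟨h, le_rfl⟩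
      have h2 : 0 ≤ η (2 * ε) := by
        rw [← hz ε le_rfl]; exact hmono (by linarith)
      linarith
  · intro s
    rcases le_total s ε with h' | h'
    · rw [hz s h']
    · rw [← hz ε le_rfl]; exact hmono h'

/-- The first Dirichlet eigenvalue of `-Δ` in `Ω`: the infimum of the Rayleigh quotients
`∫ |∇f|² / ∫ f²` over all smooth functions `f ≠ 0` with compact support contained in `Ω`. -/
noncomputable def firstDirichletEigenvalue {N : ℕ} (Ω : Set (EuclideanSpace ℝ (Fin N))) : ℝ :=
  sInf {R : ℝ | ∃ f : EuclideanSpace ℝ (Fin N) → ℝ, ContDiff ℝ (⊤ : ℕ∞) f ∧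
    HasCompactSupport f ∧ tsupport f ⊆ Ω ∧ f ≠ 0 ∧
    R = (∫ x, ‖gradient f x‖ ^ 2) / ∫ x, f x ^ 2}

/-- `φ` is a positive first Dirichlet eigenfunction of the Laplacian in the open set `Ω`:
`φ` is `C²` in `Ω`, continuous up to the boundary, `-Δφ = λ₁ φ` and `φ > 0` in `Ω`,
and `φ = 0` on `∂Ω`. -/
structure IsPositiveFirstDirichletEigenfunction {N : ℕ} (Ω : Set (EuclideanSpace ℝ (Fin N)))
    (φ : EuclideanSpace ℝ (Fin N) → ℝ) : Prop where
  contDiffOn : ContDiffOn ℝ 2 φ Ω
  continuousOn : ContinuousOn φ (closure Ω)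
  eigen : ∀ x ∈ Ω, - Laplacian.laplacian φ x = firstDirichletEigenvalue Ω * φ x
  pos : ∀ x ∈ Ω, 0 < φ x
  boundary : ∀ x ∈ frontier Ω, φ x = 0

/-- A positive smooth solution of `-Δφ = lam φ` in a bounded open set `Ω`, vanishing on the
boundary, forces `lam` to be the first Dirichlet eigenvalue. -/
theorem firstDirichletEigenvalue_eq {N : ℕ} {Ω : Set (EuclideanSpace ℝ (Fin N))}
    (hΩo : IsOpen Ω) (hΩn : Ω.Nonempty) (hΩb : Bornology.IsBounded Ω)
    {φ : EuclideanSpace ℝ (Fin N) → ℝ} {lam : ℝ} (hφ : ContDiff ℝ (⊤ : ℕ∞) φ)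
    (hpos : ∀ x ∈ Ω, 0 < φ x) (hbd : ∀ x ∈ frontier Ω, φ x = 0)
    (heig : ∀ x ∈ Ω, Laplacian.laplacian φ x = -(lam * φ x)) :
    firstDirichletEigenvalue Ω = lam := by
  classical
  have hφ2 : ContDiff ℝ 2 φ := contDiff_infty.1 hφ 2
  have hφc : Continuous φ := hφ.continuous
  have hcl : IsCompact (closure Ω) := hΩb.isCompact_closure
  -- lower bound
  have hlow : ∀ R ∈ {R : ℝ | ∃ f : EuclideanSpace ℝ (Fin N) → ℝ, ContDiff ℝ (⊤ : ℕ∞) f ∧
      HasCompactSupport f ∧ tsupport f ⊆ Ω ∧ f ≠ 0 ∧
      R = (∫ x, ‖gradient f x‖ ^ 2) / ∫ x, f x ^ 2}, lam ≤ R := by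
    rintro R ⟨f, hf, hfs, hfΩ, hf0, rfl⟩
    have hf1 : ContDiff ℝ 1 f := hf.of_le (by exact_mod_cast le_top)
    have h1 := groundState hφ2 hpos heig hf1 hfs hfΩ
    have h2 : 0 < ∫ x, f x ^ 2 := by
      obtain ⟨x0, hx0⟩ : ∃ x, f x ≠ 0 := by
        by_contra hcon
        push Not at hcon
        exact hf0 (funext hcon)
      apply Continuous.integral_pos_of_hasCompactSupport_nonneg_nonzero (x := x0)
      · exact hf.continuous.pow 2
      · apply hfs.mono
        intro x hx
        rw [Function.mem_support] at hx ⊢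
        intro h
        apply hx
        simp [h]
      · intro x; positivity
      · positivity
    rw [le_div_iff₀ h2]
    exact h1
  have hint : ∀ {h : EuclideanSpace ℝ (Fin N) → ℝ}, Continuous h → IntegrableOn h Ω := by
    intro h hh
    exact (hh.continuousOn.integrableOn_compact hcl).mono_set subset_closure
  set A := ∫ x in Ω, φ x ^ 2 with hA
  set B := ∫ x in Ω, φ x with hB
  have hApos : 0 < A := by
    rw [hA, setIntegral_pos_iff_support_of_nonneg_ae]
    · have : Function.support (fun x => φ x ^ 2) ∩ Ω = Ω := by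
        apply inter_eq_right.2
        intro x hx
        rw [Function.mem_support]
        have := hpos x hx
        positivity
      rw [this]
      exact hΩo.measure_pos volume hΩn
    · exact Eventually.of_forall (fun x => by positivity)
    · exact hint (hφc.pow 2)
  have hBnn : 0 ≤ B := by
    rw [hB]
    exact setIntegral_nonneg hΩo.measurableSet (fun x hx => (hpos x hx).le)
  -- test functions
  have htest : ∀ ε : ℝ, 0 < ε → 4 * ε * B < A →
      ∃ f : EuclideanSpace ℝ (Fin N) → ℝ, ContDiff ℝ (⊤ : ℕ∞) f ∧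
        HasCompactSupport f ∧ tsupport f ⊆ Ω ∧ f ≠ 0 ∧
        (∫ x, ‖gradient f x‖ ^ 2) ≤ lam * ∫ x in Ω, f x * φ x ∧
        (∫ x in Ω, f x * φ x) ≤ A ∧ 0 < (∫ x in Ω, f x * φ x) ∧
        A - 4 * ε * B ≤ ∫ x, f x ^ 2 := by
    intro ε hε hεA
    obtain ⟨η, hη, hη0, hηd0, hηd1, hηle, hηge, hηnn⟩ := exists_cutoff hε
    set f : EuclideanSpace ℝ (Fin N) → ℝ := Ω.indicator (fun x => η (φ x)) with hfdef
    have hfin : ∀ x ∈ Ω, f x = η (φ x) := fun x hx => indicator_of_mem hx _
    have hfout : ∀ x, x ∉ Ω → f x = 0 := fun x hx => indicator_of_notMem hx _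
    set K : Set (EuclideanSpace ℝ (Fin N)) := closure Ω ∩ {x | ε ≤ φ x} with hK
    have hKc : IsCompact K := hcl.inter_right (isClosed_le continuous_const hφc)
    have hKΩ : K ⊆ Ω := by
      rintro x ⟨hx1, hx2⟩
      by_contra hx
      have : x ∈ frontier Ω := by
        rw [frontier, hΩo.interior_eq]
        exact ⟨hx1, hx⟩
      have h0 := hbd x this
      simp only [mem_ofPred_eq] at hx2
      linarith
    have hfK : ∀ x, x ∉ K → f x = 0 := by
      intro x hx
      by_cases hxΩ : x ∈ Ω
      · rw [hfin x hxΩ]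
        apply hη0
        by_contra hcon
        push Not at hcon
        exact hx ⟨subset_closure hxΩ, hcon.le⟩
      · exact hfout x hxΩ
    have hsupp : tsupport f ⊆ K := by
      apply closure_minimal _ hKc.isClosed
      intro x hx
      by_contra hcon
      exact hx (hfK x hcon)
    have hfs : HasCompactSupport f := hKc.of_isClosed_subset (isClosed_tsupport f) hsupp
    have hfsm : ContDiff ℝ (⊤ : ℕ∞) f := by
      rw [contDiff_iff_contDiffAt]
      intro x
      by_cases hx : x ∈ Ω
      · have h1 : f =ᶠ[𝓝 x] (fun y => η (φ y)) := by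
          filter_upwards [hΩo.mem_nhds hx] with y hy
          exact hfin y hy
        exact ((hη.comp hφ).contDiffAt).congr_of_eventuallyEq h1
      · have h1 : f =ᶠ[𝓝 x] (fun _ => 0) := by
          have : Kᶜ ∈ 𝓝 x := hKc.isClosed.isOpen_compl.mem_nhds (fun h => hx (hKΩ h))
          filter_upwards [this] with y hy
          exact hfK y hy
        exact contDiffAt_const.congr_of_eventuallyEq h1
    have hf1 : ContDiff ℝ 1 f := hfsm.of_le (by exact_mod_cast le_top)
    have hfc : Continuous f := hfsm.continuous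
    have hfφs : ∀ {h : EuclideanSpace ℝ (Fin N) → ℝ}, ∀ x, x ∉ Ω → f x * h x = 0 := by
      intro h x hx
      rw [hfout x hx, zero_mul]
    -- integral of f * φ
    have hi1 : IntegrableOn (fun x => f x * φ x) Ω := hint (hfc.mul hφc)
    have hi2 : IntegrableOn (fun x => φ x ^ 2) Ω := hint (hφc.pow 2)
    have hi3 : IntegrableOn (fun x => f x ^ 2) Ω := hint (hfc.pow 2)
    have hi4 : IntegrableOn (fun x => 4 * ε * φ x) Ω := (hint hφc).const_mul _
    have hi5 : IntegrableOn (fun x => φ x ^ 2 - 4 * ε * φ x) Ω := hi2.sub hi4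
    have hI1 : (∫ x in Ω, f x * φ x) ≤ A := by
      apply setIntegral_mono_on hi1 hi2 hΩo.measurableSet
      intro x hx
      have := hpos x hx
      rw [hfin x hx, pow_two]
      exact mul_le_mul_of_nonneg_right (hηle _ this.le) this.le
    have hI2 : A - 4 * ε * B ≤ ∫ x in Ω, f x ^ 2 := by
      have h1 : A - 4 * ε * B = ∫ x in Ω, (φ x ^ 2 - 4 * ε * φ x) := by
        rw [integral_sub hi2 hi4, integral_const_mul]
      rw [h1]
      apply setIntegral_mono_on hi5 hi3 hΩo.measurableSet
      intro x hx
      have hx0 := hpos x hx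
      rw [hfin x hx]
      have h2 := hηge (φ x)
      have h3 := hηnn (φ x)
      rcases le_total (φ x) (2 * ε) with h4 | h4
      · nlinarith [sq_nonneg (η (φ x))]
      · nlinarith [sq_nonneg (η (φ x)), pow_le_pow_left₀ (by linarith : 0 ≤ φ x - 2 * ε) h2 2]
    have hI3 : ∫ x, f x ^ 2 = ∫ x in Ω, f x ^ 2 := by
      symm
      apply setIntegral_eq_integral_of_forall_compl_eq_zero
      intro x hx
      rw [hfout x hx]; simp
    have hI4 : (∫ x in Ω, f x ^ 2) ≤ ∫ x in Ω, f x * φ x := by
      apply setIntegral_mono_on hi3 hi1 hΩo.measurableSet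
      intro x hx
      have := hpos x hx
      rw [hfin x hx, pow_two]
      exact mul_le_mul_of_nonneg_left (hηle _ this.le) (hηnn _)
    have hposI : 0 < ∫ x in Ω, f x * φ x := by linarith
    have hf0 : f ≠ 0 := by
      intro h
      rw [h] at hposI
      simp at hposI
    -- gradient
    have hg := green hf1 hfs hφ2
    have hg2 : ∫ x, f x * Laplacian.laplacian φ x = - (lam * ∫ x in Ω, f x * φ x) := by
      have h1 : ∫ x in Ω, f x * Laplacian.laplacian φ x = ∫ x, f x * Laplacian.laplacian φ x := by
        apply setIntegral_eq_integral_of_forall_compl_eq_zero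
        intro x hx
        rw [hfout x hx, zero_mul]
      rw [← h1]
      have h2 : ∫ x in Ω, f x * Laplacian.laplacian φ x = ∫ x in Ω, (-lam) * (f x * φ x) := by
        apply setIntegral_congr_fun hΩo.measurableSet
        intro x hx
        simp only
        rw [heig x hx]
        ring
      rw [h2, integral_const_mul]
      ring
    have hg3 : lam * ∫ x in Ω, f x * φ x = ∫ x, inner ℝ (gradient f x) (gradient φ x) := by
      linarith
    have hgradc : ∀ {h : EuclideanSpace ℝ (Fin N) → ℝ}, ContDiff ℝ 1 h →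
        Continuous (gradient h) := by
      intro h hh
      exact (InnerProductSpace.toDual ℝ _).symm.continuous.comp (hh.continuous_fderiv (by norm_num))
    have hgrads : HasCompactSupport (gradient f) := by
      have := hfs.fderiv (𝕜 := ℝ)
      exact this.comp_left (g := (InnerProductSpace.toDual ℝ _).symm) (by simp)
    have hg4 : (∫ x, ‖gradient f x‖ ^ 2) ≤ ∫ x, inner ℝ (gradient f x) (gradient φ x) := by
      apply integral_mono
      · apply Continuous.integrable_of_hasCompactSupport
        · exact ((hgradc hf1).norm).pow 2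
        · apply hgrads.mono
          intro x hx
          rw [Function.mem_support] at hx ⊢
          intro h
          apply hx
          simp [h]
      · apply Continuous.integrable_of_hasCompactSupport
        · exact (hgradc hf1).inner (hgradc (hφ2.of_le (by norm_num)))
        · apply hgrads.mono
          intro x hx
          rw [Function.mem_support] at hx ⊢
          intro h
          apply hx
          simp [h]
      · intro x
        simp only
        by_cases hx : x ∈ Ω
        · have h1 : f =ᶠ[𝓝 x] (fun y => η (φ y)) := by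
            filter_upwards [hΩo.mem_nhds hx] with y hy
            exact hfin y hy
          have h2 : fderiv ℝ f x = deriv η (φ x) • fderiv ℝ φ x := by
            rw [h1.fderiv_eq]
            have h3 : HasDerivAt η (deriv η (φ x)) (φ x) :=
              (hη.differentiable (by simp) (φ x)).hasDerivAt
            exact (h3.comp_hasFDerivAt x
              (hφ.differentiable (by simp) x).hasFDerivAt).fderiv
          have h4 : gradient f x = deriv η (φ x) • gradient φ x := by
            simp only [gradient, h2, map_smul]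
          rw [h4, norm_smul, inner_smul_left, real_inner_self_eq_norm_sq, mul_pow,
            Real.norm_eq_abs, sq_abs]
          simp only [conj_trivial]
          have h5 := hηd0 (φ x)
          have h6 := hηd1 (φ x)
          have h7 : deriv η (φ x) ^ 2 ≤ deriv η (φ x) := by nlinarith
          exact mul_le_mul_of_nonneg_right h7 (by positivity)
        · have h1 : f =ᶠ[𝓝 x] (fun _ => 0) := by
            have : Kᶜ ∈ 𝓝 x := hKc.isClosed.isOpen_compl.mem_nhds (fun h => hx (hKΩ h))
            filter_upwards [this] with y hy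
            exact hfK y hy
          have h2 : gradient f x = 0 := by
            rw [h1.gradient_eq]
            exact gradient_fun_const x 0
          rw [h2]
          simp
    refine ⟨f, hfsm, hfs, hsupp.trans hKΩ, hf0, ?_, hI1, hposI, ?_⟩
    · rw [hg3]; exact hg4
    · rw [hI3]; exact hI2
  have hεex : ∀ᶠ ε : ℝ in 𝓝[>] 0, 4 * ε * B < A := by
    have h1 : Tendsto (fun ε : ℝ => 4 * ε * B) (𝓝[>] 0) (𝓝 0) := by
      have : Continuous (fun ε : ℝ => 4 * ε * B) := by fun_prop
      have h2 := this.tendsto 0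
      simp only [mul_zero, zero_mul] at h2
      exact h2.mono_left nhdsWithin_le_nhds
    exact h1.eventually (gt_mem_nhds hApos)
  have hlam : 0 ≤ lam := by
    obtain ⟨ε, hε1, hε2⟩ := (hεex.and self_mem_nhdsWithin).exists
    obtain ⟨f, _, _, _, _, h1, _, h3, _⟩ := htest ε hε2 hε1
    have h4 : 0 ≤ ∫ x, ‖gradient f x‖ ^ 2 := integral_nonneg (fun x => by positivity)
    by_contra hcon
    push Not at hcon
    nlinarith
  apply le_antisymm
  · have hlim : Tendsto (fun ε : ℝ => lam * A / (A - 4 * ε * B)) (𝓝[>] 0) (𝓝 lam) := by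
      have h1 : Tendsto (fun ε : ℝ => lam * A / (A - 4 * ε * B)) (𝓝 0)
          (𝓝 (lam * A / (A - 4 * 0 * B))) := by
        apply Tendsto.div tendsto_const_nhds
        · have : Continuous (fun ε : ℝ => A - 4 * ε * B) := by fun_prop
          exact this.tendsto 0
        · simp only [mul_zero, zero_mul, sub_zero]; exact hApos.ne'
      have h2 : lam * A / (A - 4 * 0 * B) = lam := by
        simp only [mul_zero, zero_mul, sub_zero]
        field_simp
      rw [h2] at h1
      exact h1.mono_left nhdsWithin_le_nhds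
    apply ge_of_tendsto hlim
    filter_upwards [hεex, self_mem_nhdsWithin] with ε hε1 hε2
    obtain ⟨f, hf1, hf2, hf3, hf4, h1, h2, h3, h4⟩ := htest ε hε2 hε1
    have hden : 0 < A - 4 * ε * B := by linarith
    have h5 : firstDirichletEigenvalue Ω ≤ (∫ x, ‖gradient f x‖ ^ 2) / ∫ x, f x ^ 2 := by
      apply csInf_le ⟨lam, hlow⟩
      exact ⟨f, hf1, hf2, hf3, hf4, rfl⟩
    refine h5.trans ?_
    have h6 : (∫ x, ‖gradient f x‖ ^ 2) ≤ lam * A :=
      h1.trans (mul_le_mul_of_nonneg_left h2 hlam)
    exact div_le_div₀ (mul_nonneg hlam hApos.le) h6 hden h4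
  · apply le_csInf
    · obtain ⟨ε, hε1, hε2⟩ := (hεex.and self_mem_nhdsWithin).exists
      obtain ⟨f, hf1, hf2, hf3, hf4, _⟩ := htest ε hε2 hε1
      exact ⟨_, f, hf1, hf2, hf3, hf4, rfl⟩
    · exact hlow

end Pool.Agent.LibHelper17.Dirichlet
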