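import Mathlib

set_option autoImplicit false

open scoped Pointwise

namespace Pool.Agent.LibHelper17.SubsetProducts

section Basics

variable {G : Type*} [Group G]

/-- The set `Π(S)` of all products of distinct elements of `S`, in any order (with `1`). -/
def PS (S : Finset G) : Set G :=
  {g | ∃ l : List G, l.Nodup ∧ (∀ x ∈ l, x ∈ S) ∧ l.prod = g}

lemma PS_finite (S : Finset G) : (PS S).Finite := by
  classical
  apply Set.Finite.subset (Finset.finite_toSet
    ((S.powerset.biUnion (fun T => T.val.lists.toFinset)).image List.prod))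
  rintro g ⟨l, hl, hS, rfl⟩
  simp only [Finset.coe_image, Set.mem_image, Finset.mem_coe, Finset.mem_biUnion,
    Finset.mem_powerset]
  refine ⟨l, ⟨l.toFinset, ?_, ?_⟩, rfl⟩
  · intro x hx; exact hS x (by simpa using hx)
  · rw [Multiset.mem_toFinset, Multiset.mem_lists_iff, List.toFinset_val, hl.dedup]
    rfl

/-- `Π(S)` as a finset. -/
noncomputable def PF (S : Finset G) : Finset G := (PS_finite S).toFinset

lemma mem_PF {S : Finset G} {g : G} :
    g ∈ PF S ↔ ∃ l : List G, l.Nodup ∧ (∀ x ∈ l, x ∈ S) ∧ l.prod = g := by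
  unfold PF
  rw [Set.Finite.mem_toFinset]
  rfl

lemma ncard_PS (S : Finset G) : (PS S).ncard = (PF S).card := by
  rw [Set.ncard_eq_toFinset_card _ (PS_finite S)]
  rfl

lemma one_mem_PF (S : Finset G) : (1 : G) ∈ PF S :=
  mem_PF.2 ⟨[], by simp, by simp, by simp⟩

lemma PF_mono {A B : Finset G} (h : A ⊆ B) : PF A ⊆ PF B := by
  intro g hg
  obtain ⟨l, h1, h2, h3⟩ := mem_PF.1 hg
  exact mem_PF.2 ⟨l, h1, fun x hx => h (h2 x hx), h3⟩

lemma subset_PF (A : Finset G) : A ⊆ PF A := by
  intro g hg
  exact mem_PF.2 ⟨[g], by simp, by simpa using hg, by simp⟩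

lemma mul_mem_PF [DecidableEq G] {A B : Finset G} (hAB : Disjoint A B) {x y : G}
    (hx : x ∈ PF A) (hy : y ∈ PF B) : x * y ∈ PF (A ∪ B) := by
  obtain ⟨l, h1, h2, h3⟩ := mem_PF.1 hx
  obtain ⟨m, k1, k2, k3⟩ := mem_PF.1 hy
  refine mem_PF.2 ⟨l ++ m, ?_, ?_, ?_⟩
  · rw [List.nodup_append']
    refine ⟨h1, k1, ?_⟩
    intro z hz hz'
    exact Finset.disjoint_left.1 hAB (h2 z hz) (k2 z hz')
  · intro z hz
    rw [List.mem_append] at hz
    rcases hz with hz | hz
    · exact Finset.mem_union_left _ (h2 z hz)
    · exact Finset.mem_union_right _ (k2 z hz)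
  · rw [List.prod_append, h3, k3]

lemma PF_subset_closure (A : Finset G) : (PF A : Set G) ⊆ Subgroup.closure (A : Set G) := by
  intro g hg
  obtain ⟨l, h1, h2, h3⟩ := mem_PF.1 hg
  rw [← h3]
  exact Subgroup.list_prod_mem _ (fun x hx => Subgroup.subset_closure (h2 x hx))

end Basics

section Lam

variable {G : Type*} [Group G] [DecidableEq G]

/-- `lam B x` is the number of `b ∈ B` with `b x ∉ B`. -/
def lam (B : Finset G) (x : G) : ℕ := (B.filter (fun b => b * x ∉ B)).card

lemma lam_one (B : Finset G) : lam B 1 = 0 := by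
  unfold lam
  rw [Finset.card_eq_zero, Finset.filter_eq_empty_iff]
  intro b hb
  simpa using hb

lemma lam_add (B : Finset G) (x : G) :
    (B.filter (fun b => b * x ∈ B)).card + lam B x = B.card := by
  unfold lam
  exact Finset.card_filter_add_card_filter_not (s := B) (fun b => b * x ∈ B)

lemma lam_inv (B : Finset G) (x : G) : lam B x⁻¹ = lam B x := by
  have h1 := lam_add B x
  have h2 := lam_add B x⁻¹
  have h3 : (B.filter (fun b => b * x ∈ B)).card = (B.filter (fun b => b * x⁻¹ ∈ B)).card := by
    apply Finset.card_bij (fun b _ => b * x)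
    · intro b hb
      rw [Finset.mem_filter] at hb ⊢
      exact ⟨hb.2, by simpa using hb.1⟩
    · intro b _ b' _ h
      exact mul_right_cancel h
    · intro b hb
      rw [Finset.mem_filter] at hb
      exact ⟨b * x⁻¹, by rw [Finset.mem_filter]; exact ⟨hb.2, by simpa using hb.1⟩, by simp⟩
  omega

lemma lam_mul (B : Finset G) (x y : G) : lam B (x * y) ≤ lam B x + lam B y := by
  unfold lam
  have h1 : B.filter (fun b => b * (x * y) ∉ B) ⊆
      B.filter (fun b => b * x ∉ B) ∪ B.filter (fun b => b * x ∈ B ∧ b * x * y ∉ B) := by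
    intro b hb
    rw [Finset.mem_filter] at hb
    rw [Finset.mem_union, Finset.mem_filter, Finset.mem_filter]
    by_cases h : b * x ∈ B
    · right
      exact ⟨hb.1, h, by rw [mul_assoc]; exact hb.2⟩
    · left
      exact ⟨hb.1, h⟩
  have h2 : (B.filter (fun b => b * x ∈ B ∧ b * x * y ∉ B)).card
      ≤ (B.filter (fun b => b * y ∉ B)).card := by
    apply Finset.card_le_card_of_injOn (fun b => b * x)
    · intro b hb
      rw [Finset.mem_coe, Finset.mem_filter] at hb
      rw [Finset.mem_coe, Finset.mem_filter]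
      exact hb.2
    · intro b _ b' _ h
      exact mul_right_cancel h
  calc (B.filter (fun b => b * (x * y) ∉ B)).card
      ≤ _ := Finset.card_le_card h1
    _ ≤ _ := Finset.card_union_le _ _
    _ ≤ _ := by omega

lemma lam_pow (B W : Finset G) (L : ℕ) (h : ∀ w ∈ W, lam B w ≤ L) (j : ℕ) :
    ∀ w ∈ W ^ j, lam B w ≤ j * L := by
  induction j with
  | zero =>
    intro w hw
    rw [pow_zero, Finset.mem_one] at hw
    rw [hw, lam_one]
    simp
  | succ j ih =>
    intro w hw
    rw [pow_succ, Finset.mem_mul] at hw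
    obtain ⟨u, hu, v, hv, rfl⟩ := hw
    have := lam_mul B u v
    have h1 := ih u hu
    have h2 := h v hv
    rw [Nat.succ_mul]
    omega

lemma card_mul_le (B T : Finset G) (L : ℕ) (h : ∀ x ∈ T, lam B x ≤ L) :
    B.card * T.card ≤ B.card ^ 2 + L * T.card := by
  have h1 : B.card * T.card = ∑ x ∈ T, ((B.filter (fun b => b * x ∈ B)).card + lam B x) := by
    rw [Finset.sum_congr rfl (fun x _ => lam_add B x)]
    simp [mul_comm]
  rw [h1, Finset.sum_add_distrib]
  have h2 : ∑ x ∈ T, lam B x ≤ L * T.card := by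
    calc ∑ x ∈ T, lam B x ≤ ∑ _x ∈ T, L := Finset.sum_le_sum h
      _ = L * T.card := by simp [mul_comm]
  have h3 : ∑ x ∈ T, (B.filter (fun b => b * x ∈ B)).card ≤ B.card ^ 2 := by
    rw [← Finset.card_sigma, pow_two, ← Finset.card_product]
    apply Finset.card_le_card_of_injOn (fun p => (p.2, p.2 * p.1))
    · intro p hp
      simp only [Finset.mem_coe, Finset.mem_sigma, Finset.mem_filter] at hp
      simp only [Finset.mem_coe, Finset.mem_product]
      exact hp.2
    · rintro ⟨x, b⟩ _ ⟨x', b'⟩ _ hpp
      simp only [Prod.mk.injEq] at hpp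
      obtain ⟨e1, e2⟩ := hpp
      subst e1
      have : x = x' := mul_left_cancel e2
      subst this
      rfl
  omega

lemma one_mem_pow {W : Finset G} (h1 : (1 : G) ∈ W) (j : ℕ) : (1 : G) ∈ W ^ j := by
  induction j with
  | zero => simp
  | succ j ih =>
    rw [pow_succ, Finset.mem_mul]
    exact ⟨1, ih, 1, h1, by simp⟩

lemma pow_subset_pow {W : Finset G} (h1 : (1 : G) ∈ W) {i j : ℕ} (hij : i ≤ j) :
    W ^ i ⊆ W ^ j := by
  obtain ⟨k, rfl⟩ := Nat.exists_eq_add_of_le hij
  intro w hw
  rw [pow_add, Finset.mem_mul]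
  exact ⟨w, hw, 1, one_mem_pow h1 k, by simp⟩

lemma pow_growth {W : Finset G} (h1 : (1 : G) ∈ W) (hinv : ∀ w ∈ W, w⁻¹ ∈ W) (i : ℕ) :
    (i + 1) * W.card ≤ (W ^ (3 * i + 1)).card ∨ ∃ l < i, W ^ (3 * l + 3) = W ^ (3 * l + 2) := by
  induction i with
  | zero => left; simp
  | succ i ih =>
    rcases ih with ih | ⟨l, hl, h⟩
    · by_cases hst : W ^ (3 * i + 3) = W ^ (3 * i + 2)
      · right; exact ⟨i, by omega, hst⟩
      · left
        have hsub : W ^ (3 * i + 2) ⊆ W ^ (3 * i + 3) := pow_subset_pow h1 (by omega)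
        obtain ⟨x, hx, hx'⟩ : ∃ x ∈ W ^ (3 * i + 3), x ∉ W ^ (3 * i + 2) := by
          by_contra hcon
          push Not at hcon
          exact hst (Finset.Subset.antisymm hcon hsub)
        have hdisj : Disjoint (W ^ (3 * i + 1)) (W.image (fun w => x * w)) := by
          rw [Finset.disjoint_left]
          intro v hv hv'
          rw [Finset.mem_image] at hv'
          obtain ⟨w, hw, rfl⟩ := hv'
          apply hx'
          have : x = (x * w) * w⁻¹ := by group
          rw [this, show 3 * i + 2 = (3 * i + 1) + 1 by ring, pow_succ, Finset.mem_mul]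
          exact ⟨x * w, hv, w⁻¹, hinv w hw, rfl⟩
        have hsub2 : W ^ (3 * i + 1) ∪ W.image (fun w => x * w) ⊆ W ^ (3 * (i + 1) + 1) := by
          apply Finset.union_subset
          · exact pow_subset_pow h1 (by omega)
          · intro v hv
            rw [Finset.mem_image] at hv
            obtain ⟨w, hw, rfl⟩ := hv
            rw [show 3 * (i + 1) + 1 = (3 * i + 3) + 1 by ring, pow_succ, Finset.mem_mul]
            exact ⟨x, hx, w, hw, rfl⟩
        have hcard := Finset.card_le_card hsub2
        rw [Finset.card_union_of_disjoint hdisj,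
          Finset.card_image_of_injective _ (mul_right_injective x)] at hcard
        calc (i + 1 + 1) * W.card = (i + 1) * W.card + W.card := by ring
          _ ≤ _ := by omega
    · right; exact ⟨l, by omega, h⟩

lemma inv_mem_pow {W : Finset G} (hinv : ∀ w ∈ W, w⁻¹ ∈ W) (j : ℕ) :
    ∀ w ∈ W ^ j, w⁻¹ ∈ W ^ j := by
  induction j with
  | zero =>
    intro w hw
    rw [pow_zero, Finset.mem_one] at hw ⊢
    rw [hw, inv_one]
  | succ j ih =>
    intro w hw
    rw [pow_succ, Finset.mem_mul] at hw
    obtain ⟨u, hu, v, hv, rfl⟩ := hw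
    rw [pow_succ', Finset.mem_mul]
    exact ⟨v⁻¹, hinv v hv, u⁻¹, ih u hu, by group⟩

lemma pow_stable {W : Finset G} {m : ℕ} (hst : W ^ (m + 1) = W ^ m) (k : ℕ) :
    W ^ (m + k) = W ^ m := by
  induction k with
  | zero => rfl
  | succ k ih =>
    rw [← add_assoc, pow_succ, ih, ← pow_succ, hst]

lemma closure_eq_pow {W : Finset G} (h1 : (1 : G) ∈ W) (hinv : ∀ w ∈ W, w⁻¹ ∈ W) {m : ℕ}
    (hm : 1 ≤ m) (hst : W ^ (m + 1) = W ^ m) :
    (Subgroup.closure (W : Set G) : Set G) = ((W ^ m : Finset G) : Set G) := by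
  apply Set.Subset.antisymm
  · intro g hg
    rw [SetLike.mem_coe] at hg
    rw [Finset.mem_coe]
    induction hg using Subgroup.closure_induction with
    | mem x hx =>
      have := pow_subset_pow h1 hm
      rw [pow_one] at this
      exact this (by simpa using hx)
    | one => exact one_mem_pow h1 m
    | mul x y _ _ hx hy =>
      have h2 : W ^ (m + m) = W ^ m := pow_stable hst m
      rw [← h2, pow_add, Finset.mem_mul]
      exact ⟨x, hx, y, hy, rfl⟩
    | inv x _ hx => exact inv_mem_pow hinv m x hx
  · have : ∀ j : ℕ, ∀ w ∈ W ^ j, w ∈ Subgroup.closure (W : Set G) := by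
      intro j
      induction j with
      | zero =>
        intro w hw
        rw [pow_zero, Finset.mem_one] at hw
        rw [hw]; exact Subgroup.one_mem _
      | succ j ih =>
        intro w hw
        rw [pow_succ, Finset.mem_mul] at hw
        obtain ⟨u, hu, v, hv, rfl⟩ := hw
        exact Subgroup.mul_mem _ (ih u hu) (Subgroup.subset_closure (by simpa using hv))
    intro g hg
    exact this m g (Finset.mem_coe.1 hg)

/-- Olson type growth lemma. -/
lemma exists_growth (B R : Finset G) (hB : B.Nonempty)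
    (hK : (Subgroup.closure (R : Set G) : Set G).Finite →
      2 * B.card ≤ Nat.card (Subgroup.closure (R : Set G))) :
    ∃ x ∈ R, min B.card R.card ≤ 14 * lam B x := by
  by_contra hcon
  push Not at hcon
  have hB0 : 0 < B.card := hB.card_pos
  have hR0 : 0 < R.card := by
    rw [Finset.card_pos]
    by_contra hne
    rw [Finset.not_nonempty_iff_eq_empty] at hne
    subst hne
    have h2 := hK (by simp)
    simp at h2
    omega
  set m := min B.card R.card with hm
  have hm0 : 0 < m := by rw [hm]; exact lt_min hB0 hR0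
  have hmB : m ≤ B.card := min_le_left _ _
  have hmR : m ≤ R.card := min_le_right _ _
  set L := (m - 1) / 14 with hL
  have hL14 : 14 * L ≤ m - 1 := Nat.mul_div_le _ _
  have hRL : ∀ x ∈ R, lam B x ≤ L := by
    intro x hx
    have := hcon x hx
    rw [hL, Nat.le_div_iff_mul_le (by norm_num)]
    omega
  set W : Finset G := insert 1 (R ∪ R.image (fun x => x⁻¹)) with hW
  have hW1 : (1 : G) ∈ W := Finset.mem_insert_self _ _
  have hWinv : ∀ w ∈ W, w⁻¹ ∈ W := by
    intro w hw
    rw [hW, Finset.mem_insert, Finset.mem_union, Finset.mem_image] at hw ⊢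
    rcases hw with rfl | hw | ⟨x, hx, rfl⟩
    · left; simp
    · right; right; exact ⟨w, hw, rfl⟩
    · right; left; simpa using hx
  have hRW : R ⊆ W := by
    intro x hx
    rw [hW, Finset.mem_insert, Finset.mem_union]
    right; left; exact hx
  have hWcard : R.card ≤ W.card := Finset.card_le_card hRW
  have hWL : ∀ w ∈ W, lam B w ≤ L := by
    intro w hw
    rw [hW, Finset.mem_insert, Finset.mem_union, Finset.mem_image] at hw
    rcases hw with rfl | hw | ⟨x, hx, rfl⟩
    · rw [lam_one]; exact Nat.zero_le _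
    · exact hRL w hw
    · rw [lam_inv]; exact hRL x hx
  have hclos : Subgroup.closure (W : Set G) = Subgroup.closure (R : Set G) := by
    apply le_antisymm
    · rw [Subgroup.closure_le]
      intro w hw
      rw [Finset.mem_coe, hW, Finset.mem_insert, Finset.mem_union, Finset.mem_image] at hw
      rcases hw with rfl | hw | ⟨x, hx, rfl⟩
      · exact Subgroup.one_mem _
      · exact Subgroup.subset_closure (by simpa using hw)
      · exact Subgroup.inv_mem _ (Subgroup.subset_closure (by simpa using hx))
    · exact Subgroup.closure_mono (by exact_mod_cast hRW)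
  set i := (2 * B.card - 1) / W.card with hi
  have hWpos : 0 < W.card := lt_of_lt_of_le hR0 hWcard
  have hi1 : 2 * B.card ≤ (i + 1) * W.card := by
    have := Nat.lt_div_mul_add (a := 2 * B.card - 1) hWpos
    rw [← hi] at this
    have e : (i + 1) * W.card = i * W.card + W.card := by ring
    omega
  have hi2 : i * W.card ≤ 2 * B.card - 1 := by
    rw [hi]; exact Nat.div_mul_le_self _ _
  have hT : 2 * B.card ≤ (W ^ (3 * i + 1)).card := by
    rcases pow_growth hW1 hWinv i with h | ⟨l, hl, h⟩
    · exact hi1.trans h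
    · have hc := closure_eq_pow hW1 hWinv (m := 3 * l + 2) (by omega) h
      rw [hclos] at hc
      have h2 := hK (by rw [hc]; exact Finset.finite_toSet _)
      have h3 : Nat.card (Subgroup.closure (R : Set G)) = (W ^ (3 * l + 2)).card := by
        have : Nat.card (Subgroup.closure (R : Set G))
            = Set.ncard (Subgroup.closure (R : Set G) : Set G) := rfl
        rw [this, hc, Set.ncard_coe_finset]
      rw [h3] at h2
      exact h2.trans (Finset.card_le_card (pow_subset_pow hW1 (by omega)))
  have hsum := card_mul_le B (W ^ (3 * i + 1)) ((3 * i + 1) * L) (lam_pow B W L hWL (3 * i + 1))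
  set T := (W ^ (3 * i + 1)).card with hTdef
  have him : i * m ≤ 2 * B.card - 1 :=
    (Nat.mul_le_mul_left i (hmR.trans hWcard)).trans hi2
  have hjL : 2 * ((3 * i + 1) * L) < B.card := by
    have e1 : 14 * ((3 * i + 1) * L) ≤ (3 * i + 1) * (m - 1) := by
      calc 14 * ((3 * i + 1) * L) = (3 * i + 1) * (14 * L) := by ring
        _ ≤ _ := Nat.mul_le_mul_left _ hL14
    have e2 : (3 * i + 1) * (m - 1) + (3 * i + 1) = 3 * (i * m) + m := by
      have : m - 1 + 1 = m := by omega
      calc (3 * i + 1) * (m - 1) + (3 * i + 1) = (3 * i + 1) * (m - 1 + 1) := by ring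
        _ = (3 * i + 1) * m := by rw [this]
        _ = _ := by ring
    omega
  nlinarith

lemma card_PF_add_lam {A Q : Finset G} (hAQ : Disjoint A Q) {x : G} (hx : x ∈ PF Q) :
    (PF A).card + lam (PF A) x ≤ (PF (A ∪ Q)).card := by
  have h1 : PF A ∪ ((PF A).filter (fun b => b * x ∉ PF A)).image (fun b => b * x)
      ⊆ PF (A ∪ Q) := by
    apply Finset.union_subset
    · exact PF_mono Finset.subset_union_left
    · intro g hg
      rw [Finset.mem_image] at hg
      obtain ⟨b, hb, rfl⟩ := hg
      rw [Finset.mem_filter] at hb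
      exact mul_mem_PF hAQ hb.1 hx
  have h2 : Disjoint (PF A) (((PF A).filter (fun b => b * x ∉ PF A)).image (fun b => b * x)) := by
    rw [Finset.disjoint_left]
    intro g hg hg'
    rw [Finset.mem_image] at hg'
    obtain ⟨b, hb, rfl⟩ := hg'
    rw [Finset.mem_filter] at hb
    exact hb.2 hg
  have h3 := Finset.card_le_card h1
  rw [Finset.card_union_of_disjoint h2,
    Finset.card_image_of_injective _ (mul_left_injective x)] at h3
  exact h3

lemma exists_large (R : Finset G) (a M : ℕ) (ha : 1 ≤ a) (hM : 14 * M ≤ a ^ 2)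
    (hR : ∀ R' ⊆ R, (R \ R').card ≤ 2 * a → a ≤ R'.card ∧
      ((Subgroup.closure (R' : Set G) : Set G).Finite →
        2 * M ≤ Nat.card (Subgroup.closure (R' : Set G)))) :
    ∃ Q ⊆ R, Q.card ≤ 2 * a ∧ M < (PF Q).card := by
  have claim : ∀ k ≤ a, ∃ Q ⊆ R, Q.card ≤ a + k ∧
      (M < (PF Q).card ∨ 14 * a + k * a ≤ 14 * (PF Q).card) := by
    intro k
    induction k with
    | zero =>
      intro _
      have h1 := (hR R (Finset.Subset.refl _) (by simp)).1
      obtain ⟨Q, hQ, hQc⟩ := Finset.exists_subset_card_eq h1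
      refine ⟨Q, hQ, by omega, Or.inr ?_⟩
      have := Finset.card_le_card (subset_PF Q)
      omega
    | succ k ih =>
      intro hk
      obtain ⟨Q, hQR, hQc, hQ⟩ := ih (by omega)
      by_cases hMQ : M < (PF Q).card
      · exact ⟨Q, hQR, by omega, Or.inl hMQ⟩
      · have hQ2 : 14 * a + k * a ≤ 14 * (PF Q).card := by
          rcases hQ with h | h
          · exact absurd h hMQ
          · exact h
        have hRQ : R \ (R \ Q) = Q := by
          exact Finset.sdiff_sdiff_eq_self hQR
        have h1 := hR (R \ Q) Finset.sdiff_subset (by rw [hRQ]; omega)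
        obtain ⟨x, hx, hlam⟩ := exists_growth (PF Q) (R \ Q) ⟨1, one_mem_PF Q⟩ (by
          intro hfin
          have := h1.2 hfin
          omega)
        have hak : a ≤ (PF Q).card := by nlinarith
        have hal : a ≤ 14 * lam (PF Q) x := (le_min hak h1.1).trans hlam
        rw [Finset.mem_sdiff] at hx
        have hdisj : Disjoint Q {x} := by
          rw [Finset.disjoint_singleton_right]; exact hx.2
        have h3 := card_PF_add_lam hdisj (subset_PF {x} (Finset.mem_singleton_self x))
        refine ⟨Q ∪ {x}, ?_, ?_, Or.inr ?_⟩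
        · apply Finset.union_subset hQR
          rw [Finset.singleton_subset_iff]; exact hx.1
        · refine (Finset.card_union_le _ _).trans ?_
          rw [Finset.card_singleton]; omega
        · have : (k + 1) * a = k * a + a := by ring
          omega
  obtain ⟨Q, hQR, hQc, hQ⟩ := claim a le_rfl
  refine ⟨Q, hQR, by omega, ?_⟩
  rcases hQ with h | h
  · exact h
  · nlinarith

end Lam

end Pool.Agent.LibHelper17.SubsetProducts
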