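import Pool.Agent.Lib_helper17.SubsetProducts

set_option autoImplicit false

open scoped Pointwise

namespace Pool.Agent.LibHelper17.SubsetProducts

variable {G : Type*} [Group G]

/-- Main inequality, in natural numbers: with `C = 10 ^ 6`,
`C |H| + |S \ H|² ≤ C |Π(S)|` for some finite subgroup `H`. -/
theorem main_nat (S : Finset G) :
    ∃ H : Subgroup G, (H : Set G).Finite ∧
      1000000 * Nat.card H + (Set.ncard ((S : Set G) \ (H : Set G))) ^ 2
        ≤ 1000000 * (PF S).card := by
  classical
  by_contra hcon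
  push Not at hcon
  set N := (PF S).card with hN
  -- step 0
  have hbot := hcon ⊥ (by simp)
  have hbc : Nat.card (⊥ : Subgroup G) = 1 := by simp
  have hS1 : Set.ncard ((S : Set G) \ ((⊥ : Subgroup G) : Set G)) = (S.erase 1).card := by
    rw [← Set.ncard_coe_finset, Finset.coe_erase, Subgroup.coe_bot]
  rw [hbc, hS1] at hbot
  set s' := (S.erase 1).card with hs'
  have hNs : s' + 1 ≤ N := by
    have h1 : insert 1 (S.erase 1) ⊆ PF S := by
      intro x hx
      rw [Finset.mem_insert] at hx
      rcases hx with rfl | hx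
      · exact one_mem_PF S
      · exact subset_PF S (Finset.mem_of_mem_erase hx)
    have h2 := Finset.card_le_card h1
    rwa [Finset.card_insert_of_notMem (Finset.notMem_erase _ _)] at h2
  have hsC : 1000000 < s' := by
    have h1 : 1000000 * s' < s' ^ 2 := by omega
    rw [pow_two] at h1
    exact lt_of_mul_lt_mul_right h1 (Nat.zero_le _)
  have hNC : 1000000 < N := by omega
  have hss' : s' ≤ S.card := Finset.card_le_card (Finset.erase_subset _ _)
  have hNS : 1000000 * N < 1000000 + S.card ^ 2 := by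
    have : s' ^ 2 ≤ S.card ^ 2 := Nat.pow_le_pow_left hss' 2
    omega
  -- the parameter a
  set a := Nat.sqrt (10 * N) + 1 with ha
  have ha1 : 10 * N < a ^ 2 := by
    rw [ha]; exact Nat.lt_succ_sqrt' _
  have ha2 : a ^ 2 ≤ 11 * N := by
    have h1 : (Nat.sqrt (10 * N)) ^ 2 ≤ 10 * N := Nat.sqrt_le' _
    rw [ha]
    set b := Nat.sqrt (10 * N) with hb
    have h2 : 2 * b + 1 ≤ N := by
      by_contra hlt
      push Not at hlt
      have h3 : N ≤ 2 * b := by omega
      have h4 : N * N ≤ (2 * b) * (2 * b) := Nat.mul_le_mul h3 h3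
      nlinarith
    calc (b + 1) ^ 2 = b ^ 2 + (2 * b + 1) := by ring
      _ ≤ 11 * N := by omega
  have ha0 : 1 ≤ a := by rw [ha]; omega
  -- (I1)
  have hncard : ∀ (R : Finset G), R ⊆ S →
      Set.ncard ((S : Set G) \ (Subgroup.closure (R : Set G) : Set G)) ≤ (S \ R).card := by
    intro R hR
    rw [← Set.ncard_coe_finset]
    apply Set.ncard_le_ncard _ (Finset.finite_toSet _)
    intro x hx
    rw [Finset.coe_sdiff]
    exact ⟨hx.1, fun hxR => hx.2 (Subgroup.subset_closure hxR)⟩
  have I1 : ∀ R ⊆ S, (S \ R).card ≤ 80 * a →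
      (Subgroup.closure (R : Set G) : Set G).Finite →
      929600 * N < 1000000 * Nat.card (Subgroup.closure (R : Set G)) := by
    intro R hR hc hfin
    have h1 := hcon _ hfin
    have h2 := (hncard R hR).trans hc
    have h3 := Nat.pow_le_pow_left h2 2
    have h4 : (80 * a) ^ 2 = 6400 * a ^ 2 := by ring
    omega
  -- (I2)
  have I2 : ∀ R ⊆ S, (S \ R).card ≤ 80 * a → a ≤ R.card := by
    intro R hR hc
    by_contra hlt
    push Not at hlt
    have h1 := Finset.card_sdiff_add_card_eq_card hR
    have h2 : S.card ≤ 81 * a := by omega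
    have h3 := Nat.pow_le_pow_left h2 2
    have h4 : (81 * a) ^ 2 = 6561 * a ^ 2 := by ring
    omega
  -- G0
  have G0 : ∀ R ⊆ S, (S \ R).card ≤ 78 * a → ∃ Q ⊆ R, Q.card ≤ 2 * a ∧
      (46 * N) / 100 < (PF Q).card := by
    intro R hR hc
    apply exists_large R a ((46 * N) / 100) ha0 (by omega)
    intro R' hR' hc'
    have h1 : (S \ R').card ≤ 80 * a := by
      have h2 : S \ R' ⊆ (S \ R) ∪ (R \ R') := by
        intro x hx
        rw [Finset.mem_sdiff] at hx
        rw [Finset.mem_union, Finset.mem_sdiff, Finset.mem_sdiff]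
        by_cases hxR : x ∈ R
        · right; exact ⟨hxR, hx.2⟩
        · left; exact ⟨hx.1, hxR⟩
      have h3 := (Finset.card_le_card h2).trans (Finset.card_union_le _ _)
      omega
    refine ⟨I2 R' (hR'.trans hR) h1, ?_⟩
    intro hfin
    have h2 := I1 R' (hR'.trans hR) h1 hfin
    omega
  -- saturation
  have hPFle : ∀ A ⊆ S, (PF A).card ≤ N := fun A hA => Finset.card_le_card (PF_mono hA)
  have sat : ∀ k ≤ 33, (∃ A ⊆ S, A.card ≤ 68 * a ∧ 46 * N ≤ 100 * (PF A).card ∧
      ∀ Q ⊆ S \ A, Q.card ≤ 2 * a → 28 * (PF (A ∪ Q)).card ≤ 29 * (PF A).card) ∨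
      (∃ A ⊆ S, A.card ≤ 2 * a * (k + 1) ∧ (1288 + 46 * k) * N ≤ 2800 * (PF A).card) := by
    intro k
    induction k with
    | zero =>
      intro _
      right
      obtain ⟨Q, hQ, hQc, hQ2⟩ := G0 S (Finset.Subset.refl _) (by simp)
      exact ⟨Q, hQ, by omega, by omega⟩
    | succ k ih =>
      intro hk
      rcases ih (by omega) with h | ⟨A, hA, hAc, hAN⟩
      · left; exact h
      · by_cases hs : ∀ Q ⊆ S \ A, Q.card ≤ 2 * a → 28 * (PF (A ∪ Q)).card ≤ 29 * (PF A).card
        · left
          refine ⟨A, hA, ?_, ?_, hs⟩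
          · have : 2 * a * (k + 1) ≤ 2 * a * 34 := Nat.mul_le_mul_left _ (by omega)
            omega
          · have : 1288 * N ≤ (1288 + 46 * k) * N := Nat.mul_le_mul_right _ (by omega)
            omega
        · push Not at hs
          obtain ⟨Q, hQ, hQc, hQ2⟩ := hs
          right
          refine ⟨A ∪ Q, Finset.union_subset hA (hQ.trans Finset.sdiff_subset), ?_, ?_⟩
          · refine (Finset.card_union_le _ _).trans ?_
            have : 2 * a * (k + 1 + 1) = 2 * a * (k + 1) + 2 * a := by ring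
            omega
          · have h1 : (1288 + 46 * (k + 1)) * N = (1288 + 46 * k) * N + 46 * N := by ring
            have h2 : 1288 * N ≤ (1288 + 46 * k) * N := Nat.mul_le_mul_right _ (by omega)
            omega
  obtain ⟨A, hA, hAc, hAN, hsat⟩ : ∃ A ⊆ S, A.card ≤ 68 * a ∧ 46 * N ≤ 100 * (PF A).card ∧
      ∀ Q ⊆ S \ A, Q.card ≤ 2 * a → 28 * (PF (A ∪ Q)).card ≤ 29 * (PF A).card := by
    rcases sat 33 le_rfl with h | ⟨A, hA, _, hAN⟩
    · exact h
    · exfalso
      have := hPFle A hA
      omega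
  -- the set R and its group K
  set R := S \ A with hR
  have hRS : R ⊆ S := Finset.sdiff_subset
  have hSR : (S \ R).card ≤ 68 * a := by
    rw [hR, Finset.sdiff_sdiff_eq_self hA]; exact hAc
  obtain ⟨Q, hQR, hQc, hQbig⟩ := G0 R hRS (by omega)
  have hdAR : Disjoint A R := by rw [hR]; exact Finset.disjoint_sdiff
  have hdAQ : Disjoint A Q := Finset.disjoint_of_subset_right hQR hdAR
  have hlamR : ∀ x ∈ R, 28 * lam (PF A) x ≤ (PF A).card := by
    intro x hx
    have hd : Disjoint A {x} := by
      rw [Finset.disjoint_singleton_right]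
      exact fun h => Finset.disjoint_left.1 hdAR h hx
    have h1 := card_PF_add_lam hd (subset_PF {x} (Finset.mem_singleton_self x))
    have h2 := hsat {x} (by rw [Finset.singleton_subset_iff]; exact hx)
      (by rw [Finset.card_singleton]; omega)
    omega
  have hlamQ : ∀ x ∈ PF Q, 28 * lam (PF A) x ≤ (PF A).card := by
    intro x hx
    have h1 := card_PF_add_lam hdAQ hx
    have h2 := hsat Q hQR hQc
    omega
  set W : Finset G := (PF Q ∪ R) ∪ (PF Q ∪ R).image (fun x => x⁻¹) with hW
  have hW1 : (1 : G) ∈ W := by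
    rw [hW, Finset.mem_union, Finset.mem_union]
    left; left; exact one_mem_PF Q
  have hWinv : ∀ w ∈ W, w⁻¹ ∈ W := by
    intro w hw
    rw [hW, Finset.mem_union, Finset.mem_image] at hw ⊢
    rcases hw with hw | ⟨x, hx, rfl⟩
    · right; exact ⟨w, hw, rfl⟩
    · left; simpa using hx
  have hWlam : ∀ w ∈ W, lam (PF A) w ≤ (PF A).card / 28 := by
    intro w hw
    rw [hW, Finset.mem_union, Finset.mem_image] at hw
    have key : ∀ x ∈ PF Q ∪ R, lam (PF A) x ≤ (PF A).card / 28 := by
      intro x hx
      rw [Nat.le_div_iff_mul_le (by norm_num), mul_comm]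
      rcases Finset.mem_union.1 hx with hx | hx
      · exact hlamQ x hx
      · exact hlamR x hx
    rcases hw with hw | ⟨x, hx, rfl⟩
    · exact key w hw
    · rw [lam_inv]; exact key x hx
  have hYpos : 0 < (PF A).card := by
    rw [Finset.card_pos]; exact ⟨1, one_mem_PF A⟩
  have h7 : 3 * (W ^ 7).card ≤ 4 * (PF A).card := by
    have h1 := card_mul_le (PF A) (W ^ 7) (7 * ((PF A).card / 28)) (lam_pow _ _ _ hWlam 7)
    have h2 : 4 * (7 * ((PF A).card / 28)) ≤ (PF A).card := by
      have := Nat.mul_div_le (PF A).card 28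
      omega
    set Y := (PF A).card
    set T := (W ^ 7).card
    have h3 : 4 * (Y * T) ≤ 4 * Y ^ 2 + Y * T := by
      have h4 : 4 * (7 * (Y / 28) * T) ≤ Y * T := by
        calc 4 * (7 * (Y / 28) * T) = (4 * (7 * (Y / 28))) * T := by ring
          _ ≤ Y * T := Nat.mul_le_mul_right _ h2
      omega
    have h5 : Y * (3 * T) ≤ Y * (4 * Y) := by nlinarith
    exact Nat.le_of_mul_le_mul_left h5 hYpos
  have hYN : (PF A).card ≤ N := hPFle A hA
  have hWQ : (PF Q).card ≤ W.card := by
    apply Finset.card_le_card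
    intro x hx
    rw [hW, Finset.mem_union, Finset.mem_union]
    left; left; exact hx
  obtain ⟨m, hm1, hm7, hmst⟩ : ∃ m, 1 ≤ m ∧ m ≤ 7 ∧ W ^ (m + 1) = W ^ m := by
    rcases pow_growth hW1 hWinv 2 with h | ⟨l, hl, h⟩
    · exfalso
      norm_num at h
      omega
    · exact ⟨3 * l + 2, by omega, by omega, h⟩
  have hcl := closure_eq_pow hW1 hWinv hm1 hmst
  have hRW : (R : Set G) ⊆ (W : Set G) := by
    intro x hx
    rw [Finset.mem_coe] at hx ⊢
    rw [hW, Finset.mem_union, Finset.mem_union]
    left; right; exact hx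
  have hRclW : Subgroup.closure (R : Set G) ≤ Subgroup.closure (W : Set G) :=
    Subgroup.closure_mono hRW
  have hWfin : (Subgroup.closure (W : Set G) : Set G).Finite := by
    rw [hcl]; exact Finset.finite_toSet _
  set K := Subgroup.closure (R : Set G) with hK
  have hKfin : (K : Set G).Finite := hWfin.subset hRclW
  have hKcard : 3 * Nat.card K ≤ 4 * N := by
    have h1 : Nat.card K ≤ (W ^ 7).card := by
      have e1 : Nat.card K = Set.ncard (K : Set G) := rfl
      rw [e1, ← Set.ncard_coe_finset]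
      apply Set.ncard_le_ncard _ (Finset.finite_toSet _)
      have e2 : (K : Set G) ⊆ ((W ^ m : Finset G) : Set G) := by
        rw [← hcl]; exact hRclW
      exact e2.trans (Finset.coe_subset.2 (pow_subset_pow hW1 hm7))
    omega
  -- large subsets of `R` generate `K`
  have hgen : ∀ R' ⊆ R, (S \ R').card ≤ 80 * a → Subgroup.closure (R' : Set G) = K := by
    intro R' hR' hc
    have hle : Subgroup.closure (R' : Set G) ≤ K :=
      Subgroup.closure_mono (Finset.coe_subset.2 hR')
    have hfin : (Subgroup.closure (R' : Set G) : Set G).Finite := hKfin.subset hle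
    have h1 := I1 R' (hR'.trans hRS) hc hfin
    have hKF : Finite K := hKfin
    have hdvd := Subgroup.card_dvd_of_le hle
    obtain ⟨q, hq⟩ := hdvd
    have hKpos : 0 < Nat.card K := Nat.card_pos
    have hq1 : q = 1 := by
      rcases Nat.lt_or_ge q 2 with h | h
      · interval_cases q
        · omega
        · rfl
      · exfalso
        have h2 : Nat.card (Subgroup.closure (R' : Set G)) * 2
            ≤ Nat.card (Subgroup.closure (R' : Set G)) * q := Nat.mul_le_mul_left _ h
        omega
    apply Subgroup.eq_of_le_of_card_ge hle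
    rw [hq, hq1, mul_one]
  -- G1
  have G1 : ∀ R'' ⊆ R, (S \ R'').card ≤ 78 * a → ∃ Q ⊆ R'', Q.card ≤ 2 * a ∧
      Nat.card K < 2 * (PF Q).card := by
    intro R'' hR'' hc
    have hRS'' : R'' ⊆ S := hR''.trans hRS
    obtain ⟨Q1, h1, h2, h3⟩ := exists_large R'' a (Nat.card K / 2) ha0 (by omega) (by
      intro R' hR' hc'
      have h1 : (S \ R').card ≤ 80 * a := by
        have h2 : S \ R' ⊆ (S \ R'') ∪ (R'' \ R') := by
          intro x hx
          rw [Finset.mem_sdiff] at hx
          rw [Finset.mem_union, Finset.mem_sdiff, Finset.mem_sdiff]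
          by_cases hxR : x ∈ R''
          · right; exact ⟨hxR, hx.2⟩
          · left; exact ⟨hx.1, hxR⟩
        have h3 := (Finset.card_le_card h2).trans (Finset.card_union_le _ _)
        omega
      refine ⟨I2 R' (hR'.trans hRS'') h1, ?_⟩
      intro _
      rw [hgen R' (hR'.trans hR'') h1]
      omega)
    exact ⟨Q1, h1, h2, by omega⟩
  obtain ⟨Q1, hQ1R, hQ1c, hQ1⟩ := G1 R (Finset.Subset.refl _) (by omega)
  have hSRQ : (S \ (R \ Q1)).card ≤ 78 * a := by
    have h2 : S \ (R \ Q1) ⊆ (S \ R) ∪ Q1 := by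
      intro x hx
      rw [Finset.mem_sdiff, Finset.mem_sdiff] at hx
      rw [Finset.mem_union, Finset.mem_sdiff]
      by_cases hxR : x ∈ R
      · right
        by_contra hq
        exact hx.2 ⟨hxR, hq⟩
      · left; exact ⟨hx.1, hxR⟩
    have h3 := (Finset.card_le_card h2).trans (Finset.card_union_le _ _)
    omega
  obtain ⟨Q2, hQ2R, hQ2c, hQ2⟩ := G1 (R \ Q1) Finset.sdiff_subset hSRQ
  have hd12 : Disjoint Q1 Q2 := by
    rw [Finset.disjoint_left]
    intro x hx hx'
    exact (Finset.mem_sdiff.1 (hQ2R hx')).2 hx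
  have hsubK : ∀ Q0 ⊆ R, (PF Q0 : Set G) ⊆ (K : Set G) := by
    intro Q0 hQ0
    exact (PF_subset_closure Q0).trans (Subgroup.closure_mono (Finset.coe_subset.2 hQ0))
  have hQ2R' : Q2 ⊆ R := hQ2R.trans Finset.sdiff_subset
  have hKsub : ∀ k ∈ K, k ∈ PF (Q1 ∪ Q2) := by
    intro k hk
    by_contra hkn
    have hdisj : Disjoint ((PF Q1).image (fun q => q⁻¹ * k)) (PF Q2) := by
      rw [Finset.disjoint_left]
      intro x hx hx'
      rw [Finset.mem_image] at hx
      obtain ⟨q, hq, rfl⟩ := hx
      apply hkn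
      have := mul_mem_PF hd12 hq hx'
      simpa using this
    have hsub : (((PF Q1).image (fun q => q⁻¹ * k) ∪ PF Q2 : Finset G) : Set G) ⊆ (K : Set G) := by
      intro x hx
      rw [Finset.mem_coe, Finset.mem_union, Finset.mem_image] at hx
      rcases hx with ⟨q, hq, rfl⟩ | hx
      · exact K.mul_mem (K.inv_mem (hsubK Q1 hQ1R hq)) hk
      · exact hsubK Q2 hQ2R' hx
    have h1 := Set.ncard_le_ncard hsub hKfin
    rw [Set.ncard_coe_finset, Finset.card_union_of_disjoint hdisj,
      Finset.card_image_of_injective] at h1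
    · have e1 : Nat.card K = Set.ncard (K : Set G) := rfl
      omega
    · intro q q' hqq
      have := mul_right_cancel hqq
      exact inv_injective this
  -- conclusion
  have hKR : Set.ncard (K : Set G) ≤ (PF (Q1 ∪ Q2)).card := by
    rw [← Set.ncard_coe_finset]
    exact Set.ncard_le_ncard (fun k hk => hKsub k hk) (Finset.finite_toSet _)
  have hQ12R : Q1 ∪ Q2 ⊆ R := Finset.union_subset hQ1R hQ2R'
  by_cases hSK : (S : Set G) ⊆ (K : Set G)
  · have h1 := hcon K hKfin
    have h2 : Set.ncard ((S : Set G) \ (K : Set G)) = 0 := by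
      rw [Set.sdiff_eq_empty.2 hSK, Set.ncard_empty]
    have h3 := hPFle (Q1 ∪ Q2) (hQ12R.trans hRS)
    have e1 : Nat.card K = Set.ncard (K : Set G) := rfl
    rw [h2] at h1
    omega
  · rw [Set.not_subset] at hSK
    obtain ⟨g, hgS, hgK⟩ := hSK
    have hgR : g ∉ R := fun h => hgK (Subgroup.subset_closure h)
    have hd : Disjoint (Q1 ∪ Q2) {g} := by
      rw [Finset.disjoint_singleton_right]
      exact fun h => hgR (hQ12R h)
    have hsub : (Q1 ∪ Q2) ∪ {g} ⊆ S := by
      apply Finset.union_subset (hQ12R.trans hRS)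
      rw [Finset.singleton_subset_iff]
      exact hgS
    have hKg : (K : Set G) ∪ (fun k => k * g) '' (K : Set G) ⊆ (PF S : Set G) := by
      apply Set.union_subset
      · intro k hk
        exact PF_mono (hQ12R.trans hRS) (hKsub k hk)
      · rintro _ ⟨k, hk, rfl⟩
        exact PF_mono hsub (mul_mem_PF hd (hKsub k hk)
          (subset_PF {g} (Finset.mem_singleton_self g)))
    have hdisj : Disjoint (K : Set G) ((fun k => k * g) '' (K : Set G)) := by
      rw [Set.disjoint_left]
      rintro x hx ⟨k, hk, rfl⟩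
      apply hgK
      have : g = k⁻¹ * (k * g) := by group
      rw [this]
      exact K.mul_mem (K.inv_mem hk) hx
    have h1 := Set.ncard_le_ncard hKg (Finset.finite_toSet _)
    rw [Set.ncard_union_eq hdisj hKfin (hKfin.image _), Set.ncard_coe_finset,
      Set.ncard_image_of_injective _ (mul_left_injective g)] at h1
    have h2 := I1 R hRS (by omega) hKfin
    have e1 : Nat.card K = Set.ncard (K : Set G) := rfl
    rw [← hK, e1] at h2
    omega

end Pool.Agent.LibHelper17.SubsetProducts
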