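import Pool.Agent.Lib_helper17.Dirichlet2

set_option autoImplicit false

open MeasureTheory Set Filter Topology

namespace Pool.Agent.LibHelper17.Dirichlet

/-- Second directional derivative through a one-variable restriction. -/
theorem iteratedFDeriv_two_dir {N : ℕ} {φ : EuclideanSpace ℝ (Fin N) → ℝ} (hφ : ContDiff ℝ 2 φ)
    (x v : EuclideanSpace ℝ (Fin N)) {h h' : ℝ → ℝ} {h'' : ℝ}
    (hh : ∀ t : ℝ, φ (x + t • v) = h t) (h1 : ∀ t, HasDerivAt h (h' t) t)
    (h2 : HasDerivAt h' h'' 0) :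
    iteratedFDeriv ℝ 2 φ x ![v, v] = h'' := by
  have hdφ : ContDiff ℝ 1 (fderiv ℝ φ) := hφ.fderiv_right (by norm_num)
  have hline : ∀ t : ℝ, HasDerivAt (fun t : ℝ => x + t • v) v t := by
    intro t
    simpa using ((hasDerivAt_id t).smul_const v).const_add x
  have e1 : ∀ t : ℝ, h' t = fderiv ℝ φ (x + t • v) v := by
    intro t
    have a1 : HasDerivAt (fun t : ℝ => φ (x + t • v)) (fderiv ℝ φ (x + t • v) v) t :=
      ((hφ.differentiable (by norm_num) (x + t • v)).hasFDerivAt).comp_hasDerivAt t (hline t)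
    have a2 : (fun t : ℝ => φ (x + t • v)) = h := funext hh
    rw [a2] at a1
    exact (h1 t).unique a1
  have e2 : HasDerivAt (fun t : ℝ => fderiv ℝ φ (x + t • v) v)
      (fderiv ℝ (fderiv ℝ φ) x v v) 0 := by
    have a1 : HasFDerivAt (fderiv ℝ φ) (fderiv ℝ (fderiv ℝ φ) (x + (0 : ℝ) • v))
        (x + (0 : ℝ) • v) :=
      (hdφ.differentiable (by norm_num) (x + (0 : ℝ) • v)).hasFDerivAt
    have a2 : HasDerivAt (fun t : ℝ => fderiv ℝ φ (x + t • v))
        (fderiv ℝ (fderiv ℝ φ) (x + (0 : ℝ) • v) v) 0 := a1.comp_hasDerivAt (0 : ℝ) (hline 0)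
    have a3 := a2.clm_apply (hasDerivAt_const (0 : ℝ) v)
    simpa using a3
  have e3 : h' = fun t : ℝ => fderiv ℝ φ (x + t • v) v := funext e1
  rw [e3] at h2
  rw [iteratedFDeriv_two_apply]
  simp only [Matrix.cons_val_zero, Matrix.cons_val_one]
  exact e2.unique h2

/-- Equilateral triangle of height `π` times a cube of side `π`. -/
def dom (n : ℕ) : Set (EuclideanSpace ℝ (Fin (n + 2))) :=
  {x | 0 < x 1 ∧ x 1 < √3 * x 0 ∧ √3 * x 0 + x 1 < 2 * Real.pi ∧
    ∀ i : Fin n, -(Real.pi / 2) < x i.succ.succ ∧ x i.succ.succ < Real.pi / 2}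

/-- The normalised eigenfunction. -/
noncomputable def eig (n : ℕ) (x : EuclideanSpace ℝ (Fin (n + 2))) : ℝ :=
  (4 * √3 / 9) * (Real.sin (x 1) * (Real.cos (x 1) - Real.cos (√3 * x 0))) *
    ∏ i : Fin n, Real.cos (x i.succ.succ)

lemma eig_contDiff (n : ℕ) : ContDiff ℝ (⊤ : ℕ∞) (eig n) := by
  unfold eig
  have hc : ∀ i, ContDiff ℝ (⊤ : ℕ∞) (fun x : EuclideanSpace ℝ (Fin (n + 2)) => x i) := by
    intro i
    exact (EuclideanSpace.proj i : EuclideanSpace ℝ (Fin (n + 2)) →L[ℝ] ℝ).contDiff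
  apply ContDiff.mul
  · apply ContDiff.mul contDiff_const
    apply ContDiff.mul (Real.contDiff_sin.comp (hc 1))
    exact (Real.contDiff_cos.comp (hc 1)).sub (Real.contDiff_cos.comp (contDiff_const.mul (hc 0)))
  · apply contDiff_prod
    intro i _
    exact Real.contDiff_cos.comp (hc _)

lemma single_apply' {N : ℕ} (i j : Fin N) (x : EuclideanSpace ℝ (Fin N)) (t : ℝ) :
    (x + t • (EuclideanSpace.basisFun (Fin N) ℝ) i) j = x j + if j = i then t else 0 := by
  simp [EuclideanSpace.basisFun_apply, PiLp.add_apply, PiLp.smul_apply]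

lemma eig_laplacian (n : ℕ) (x : EuclideanSpace ℝ (Fin (n + 2))) :
    Laplacian.laplacian (eig n) x = -((4 + n : ℝ) * eig n x) := by
  classical
  have hφ : ContDiff ℝ 2 (eig n) := contDiff_infty.1 (eig_contDiff n) 2
  rw [InnerProductSpace.laplacian_eq_iteratedFDeriv_orthonormalBasis (eig n)
    (EuclideanSpace.basisFun (Fin (n + 2)) ℝ)]
  simp only
  rw [Fin.sum_univ_succ, Fin.sum_univ_succ]
  set P : ℝ := ∏ i : Fin n, Real.cos (x i.succ.succ) with hP
  have h3 : (√3 : ℝ) ^ 2 = 3 := Real.sq_sqrt (by norm_num)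
  -- direction 0
  have d0 : iteratedFDeriv ℝ 2 (eig n) x ![(EuclideanSpace.basisFun (Fin (n + 2)) ℝ) 0,
      (EuclideanSpace.basisFun (Fin (n + 2)) ℝ) 0]
      = (4 * √3 / 9) * (Real.sin (x 1) * (3 * Real.cos (√3 * x 0))) * P := by
    have hlin : ∀ t : ℝ, HasDerivAt (fun t : ℝ => √3 * (x 0 + t)) √3 t := by
      intro t
      simpa using ((hasDerivAt_id t).const_add (x 0)).const_mul √3
    apply iteratedFDeriv_two_dir hφ x _
      (h := fun t => (4 * √3 / 9) * (Real.sin (x 1) *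
        (Real.cos (x 1) - Real.cos (√3 * (x 0 + t)))) * P)
      (h' := fun t => (4 * √3 / 9) * (Real.sin (x 1) *
        (Real.sin (√3 * (x 0 + t)) * √3)) * P)
    · intro t
      unfold eig
      rw [hP]
      simp only [single_apply']
      simp [Fin.succ_ne_zero]
    · intro t
      have a1 := (((hlin t).cos).const_sub (Real.cos (x 1))).const_mul (Real.sin (x 1))
      have a2 := (a1.const_mul (4 * √3 / 9)).mul_const P
      exact a2.congr_deriv (by ring)
    · have a1 := ((((hlin 0).sin).mul_const √3).const_mul (Real.sin (x 1)))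
      have a2 := (a1.const_mul (4 * √3 / 9)).mul_const P
      refine a2.congr_deriv ?_
      rw [add_zero]
      have : Real.cos (√3 * x 0) * √3 * √3 = 3 * Real.cos (√3 * x 0) := by
        rw [mul_assoc, ← pow_two, h3]; ring
      rw [this]
  -- direction 1
  have d1 : iteratedFDeriv ℝ 2 (eig n) x ![(EuclideanSpace.basisFun (Fin (n + 2)) ℝ) (Fin.succ 0),
      (EuclideanSpace.basisFun (Fin (n + 2)) ℝ) (Fin.succ 0)]
      = (4 * √3 / 9) * (-4 * Real.sin (x 1) * Real.cos (x 1)
        + Real.sin (x 1) * Real.cos (√3 * x 0)) * P := by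
    have hlin : ∀ t : ℝ, HasDerivAt (fun t : ℝ => x 1 + t) 1 t := by
      intro t
      simpa using (hasDerivAt_id t).const_add (x 1)
    apply iteratedFDeriv_two_dir hφ x _
      (h := fun t => (4 * √3 / 9) * (Real.sin (x 1 + t) *
        (Real.cos (x 1 + t) - Real.cos (√3 * x 0))) * P)
      (h' := fun t => (4 * √3 / 9) * (Real.cos (x 1 + t) *
        (Real.cos (x 1 + t) - Real.cos (√3 * x 0)) - Real.sin (x 1 + t) * Real.sin (x 1 + t)) * P)
    · intro t
      unfold eig
      rw [hP]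
      simp only [single_apply']
      have e : ∀ i : Fin n, ¬ (i.succ.succ = (1 : Fin (n + 2))) := by
        intro i h
        have := congrArg Fin.val h
        simp at this
      simp [e]
    · intro t
      have a1 := ((hlin t).sin).mul (((hlin t).cos).sub_const (Real.cos (√3 * x 0)))
      have a2 := (a1.const_mul (4 * √3 / 9)).mul_const P
      exact a2.congr_deriv (by ring)
    · have a1 := (((hlin 0).cos).mul (((hlin 0).cos).sub_const (Real.cos (√3 * x 0)))).sub
        (((hlin 0).sin).mul ((hlin 0).sin))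
      have a2 := (a1.const_mul (4 * √3 / 9)).mul_const P
      refine a2.congr_deriv ?_
      rw [add_zero]
      ring
  -- other directions
  have d2 : ∀ i : Fin n, iteratedFDeriv ℝ 2 (eig n) x
      ![(EuclideanSpace.basisFun (Fin (n + 2)) ℝ) i.succ.succ,
      (EuclideanSpace.basisFun (Fin (n + 2)) ℝ) i.succ.succ] = - eig n x := by
    intro i
    set A : ℝ := (4 * √3 / 9) * (Real.sin (x 1) * (Real.cos (x 1) - Real.cos (√3 * x 0))) with hA
    set Q : ℝ := ∏ j ∈ Finset.univ.erase i, Real.cos (x j.succ.succ) with hQ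
    have hlin : ∀ t : ℝ, HasDerivAt (fun t : ℝ => x i.succ.succ + t) 1 t := by
      intro t
      simpa using (hasDerivAt_id t).const_add (x i.succ.succ)
    apply iteratedFDeriv_two_dir hφ x _
      (h := fun t => A * (Real.cos (x i.succ.succ + t) * Q))
      (h' := fun t => A * (- Real.sin (x i.succ.succ + t) * 1 * Q))
    · intro t
      unfold eig
      simp only [single_apply']
      have e1 : ¬ ((1 : Fin (n + 2)) = i.succ.succ) := by
        intro h
        have := congrArg Fin.val h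
        simp at this
      have e0 : ¬ ((0 : Fin (n + 2)) = i.succ.succ) := by
        intro h
        have := congrArg Fin.val h
        simp at this
      simp only [e1, e0, if_false, add_zero]
      rw [← Finset.mul_prod_erase Finset.univ _ (Finset.mem_univ i)]
      simp only [if_true]
      congr 2
      apply Finset.prod_congr rfl
      intro j hj
      have : ¬ (j.succ.succ = i.succ.succ) := by
        intro h
        exact (Finset.ne_of_mem_erase hj) (Fin.succ_injective _ (Fin.succ_injective _ h))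
      simp [this]
    · intro t
      exact (((hlin t).cos).mul_const Q).const_mul A
    · have a1 := ((((hlin 0).sin).neg).mul_const (1 : ℝ)).mul_const Q
      have a2 := a1.const_mul A
      refine a2.congr_deriv ?_
      unfold eig
      rw [← Finset.mul_prod_erase Finset.univ _ (Finset.mem_univ i), add_zero, ← hA, ← hQ]
      ring
  rw [d0, d1, Finset.sum_congr rfl (fun i _ => d2 i)]
  simp only [Finset.sum_const, Finset.card_univ, Fintype.card_fin, nsmul_eq_mul]
  unfold eig
  rw [← hP]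
  ring

lemma dom_isOpen (n : ℕ) : IsOpen (dom n) := by
  have hc : ∀ i, Continuous (fun x : EuclideanSpace ℝ (Fin (n + 2)) => x i) := by
    intro i
    exact (EuclideanSpace.proj i : EuclideanSpace ℝ (Fin (n + 2)) →L[ℝ] ℝ).continuous
  unfold dom
  have e : {x : EuclideanSpace ℝ (Fin (n + 2)) | 0 < x 1 ∧ x 1 < √3 * x 0 ∧
      √3 * x 0 + x 1 < 2 * Real.pi ∧
      ∀ i : Fin n, -(Real.pi / 2) < x i.succ.succ ∧ x i.succ.succ < Real.pi / 2}
      = {x | 0 < x 1} ∩ ({x | x 1 < √3 * x 0} ∩ ({x | √3 * x 0 + x 1 < 2 * Real.pi} ∩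
        ⋂ i : Fin n, ({x | -(Real.pi / 2) < x i.succ.succ} ∩ {x | x i.succ.succ < Real.pi / 2}))) := by
    ext x
    simp
  rw [e]
  refine (isOpen_lt continuous_const (hc 1)).inter ((isOpen_lt (hc 1)
    (continuous_const.mul (hc 0))).inter ((isOpen_lt ((continuous_const.mul (hc 0)).add (hc 1))
    continuous_const).inter ?_))
  apply isOpen_iInter_of_finite
  intro i
  exact (isOpen_lt continuous_const (hc _)).inter (isOpen_lt (hc _) continuous_const)

lemma dom_convex (n : ℕ) : Convex ℝ (dom n) := by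
  intro x hx y hy a b ha hb hab
  obtain ⟨hx1, hx2, hx3, hx4⟩ := hx
  obtain ⟨hy1, hy2, hy3, hy4⟩ := hy
  have e : ∀ i, (a • x + b • y) i = a * x i + b * y i := by
    intro i; simp [PiLp.add_apply, PiLp.smul_apply]
  have hstrict : ∀ u v r : ℝ, u < r → v < r → a * u + b * v < r := by
    intro u v r hu hv
    have h1 : a * u ≤ a * r := mul_le_mul_of_nonneg_left hu.le ha
    have h2 : b * v ≤ b * r := mul_le_mul_of_nonneg_left hv.le hb
    rcases ha.eq_or_lt with h | h
    · have : b = 1 := by linarith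
      subst this; subst h; linarith
    · have h3 : a * u < a * r := mul_lt_mul_of_pos_left hu h
      have : a * r + b * r = r := by rw [← add_mul, hab, one_mul]
      linarith
  refine ⟨?_, ?_, ?_, ?_⟩
  · rw [e]
    have := hstrict (-(x 1)) (-(y 1)) 0 (by linarith) (by linarith)
    linarith
  · rw [e, e]
    have := hstrict (x 1 - √3 * x 0) (y 1 - √3 * y 0) 0 (by linarith) (by linarith)
    linarith
  · rw [e, e]
    have := hstrict (√3 * x 0 + x 1) (√3 * y 0 + y 1) (2 * Real.pi) hx3 hy3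
    linarith
  · intro i
    rw [e]
    constructor
    · have := hstrict (-(x i.succ.succ)) (-(y i.succ.succ)) (Real.pi / 2)
        (by linarith [(hx4 i).1]) (by linarith [(hy4 i).1])
      linarith
    · exact hstrict _ _ _ (hx4 i).2 (hy4 i).2

lemma dom_bounded (n : ℕ) : Bornology.IsBounded (dom n) := by
  rw [isBounded_iff_forall_norm_le]
  refine ⟨√(∑ _i : Fin (n + 2), (2 * Real.pi) ^ 2), ?_⟩
  intro x hx
  obtain ⟨hx1, hx2, hx3, hx4⟩ := hx
  rw [EuclideanSpace.norm_eq]
  apply Real.sqrt_le_sqrt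
  apply Finset.sum_le_sum
  intro i _
  apply pow_le_pow_left₀ (norm_nonneg _)
  rw [Real.norm_eq_abs, abs_le]
  have hpi := Real.pi_pos
  have h3 : (1 : ℝ) < √3 := by
    rw [Real.lt_sqrt (by norm_num)]; norm_num
  have hx0 : 0 < x 0 := by
    by_contra hcon
    push Not at hcon
    nlinarith
  refine Fin.cases ?_ (fun j => ?_) i
  · constructor <;> nlinarith
  · refine Fin.cases ?_ (fun k => ?_) j
    · have e1 : (Fin.succ 0 : Fin (n + 2)) = 1 := rfl
      rw [e1]
      constructor <;> nlinarith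
    · have := hx4 k
      constructor <;> linarith [this.1, this.2]

lemma eig_pos (n : ℕ) : ∀ x ∈ dom n, 0 < eig n x := by
  intro x hx
  obtain ⟨hx1, hx2, hx3, hx4⟩ := hx
  unfold eig
  have hpi := Real.pi_pos
  apply mul_pos
  · apply mul_pos (by positivity)
    apply mul_pos
    · exact Real.sin_pos_of_pos_of_lt_pi hx1 (by linarith)
    · rw [Real.cos_sub_cos]
      have h1 : 0 < Real.sin ((x 1 + √3 * x 0) / 2) :=
        Real.sin_pos_of_pos_of_lt_pi (by linarith) (by linarith)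
      have h2 : Real.sin ((x 1 - √3 * x 0) / 2) < 0 :=
        Real.sin_neg_of_neg_of_neg_pi_lt (by linarith) (by linarith)
      nlinarith [mul_pos h1 (neg_pos.2 h2)]
  · apply Finset.prod_pos
    intro i _
    exact Real.cos_pos_of_mem_Ioo ⟨(hx4 i).1, (hx4 i).2⟩

lemma closure_dom_subset (n : ℕ) : closure (dom n) ⊆
    {x | 0 ≤ x 1 ∧ x 1 ≤ √3 * x 0 ∧ √3 * x 0 + x 1 ≤ 2 * Real.pi ∧
      ∀ i : Fin n, -(Real.pi / 2) ≤ x i.succ.succ ∧ x i.succ.succ ≤ Real.pi / 2} := by
  have hc : ∀ i, Continuous (fun x : EuclideanSpace ℝ (Fin (n + 2)) => x i) := by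
    intro i
    exact (EuclideanSpace.proj i : EuclideanSpace ℝ (Fin (n + 2)) →L[ℝ] ℝ).continuous
  apply closure_minimal
  · rintro x ⟨h1, h2, h3, h4⟩
    exact ⟨h1.le, h2.le, h3.le, fun i => ⟨(h4 i).1.le, (h4 i).2.le⟩⟩
  · have e : {x : EuclideanSpace ℝ (Fin (n + 2)) | 0 ≤ x 1 ∧ x 1 ≤ √3 * x 0 ∧
        √3 * x 0 + x 1 ≤ 2 * Real.pi ∧
        ∀ i : Fin n, -(Real.pi / 2) ≤ x i.succ.succ ∧ x i.succ.succ ≤ Real.pi / 2}
        = {x | 0 ≤ x 1} ∩ ({x | x 1 ≤ √3 * x 0} ∩ ({x | √3 * x 0 + x 1 ≤ 2 * Real.pi} ∩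
          ⋂ i : Fin n, ({x | -(Real.pi / 2) ≤ x i.succ.succ} ∩
            {x | x i.succ.succ ≤ Real.pi / 2}))) := by
      ext x
      simp
    rw [e]
    refine (isClosed_le continuous_const (hc 1)).inter ((isClosed_le (hc 1)
      (continuous_const.mul (hc 0))).inter ((isClosed_le ((continuous_const.mul (hc 0)).add (hc 1))
      continuous_const).inter ?_))
    apply isClosed_iInter
    intro i
    exact (isClosed_le continuous_const (hc _)).inter (isClosed_le (hc _) continuous_const)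

lemma eig_boundary (n : ℕ) : ∀ x ∈ frontier (dom n), eig n x = 0 := by
  intro x hx
  rw [frontier, (dom_isOpen n).interior_eq] at hx
  obtain ⟨hx1, hx2⟩ := hx
  obtain ⟨h1, h2, h3, h4⟩ := closure_dom_subset n hx1
  unfold eig
  by_cases c1 : x 1 = 0
  · rw [c1]; simp
  by_cases c2 : x 1 = √3 * x 0
  · rw [← c2]; simp
  by_cases c3 : √3 * x 0 + x 1 = 2 * Real.pi
  · have : √3 * x 0 = 2 * Real.pi - x 1 := by linarith
    rw [this, Real.cos_two_pi_sub]; simp
  by_cases c4 : ∃ i : Fin n, Real.cos (x i.succ.succ) = 0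
  · obtain ⟨i, hi⟩ := c4
    rw [Finset.prod_eq_zero (Finset.mem_univ i) hi, mul_zero]
  · exfalso
    push Not at c4
    apply hx2
    refine ⟨lt_of_le_of_ne h1 (Ne.symm c1), lt_of_le_of_ne h2 c2, lt_of_le_of_ne h3 c3, ?_⟩
    intro i
    have h5 := h4 i
    constructor
    · apply lt_of_le_of_ne h5.1
      intro h
      apply c4 i
      rw [← h, Real.cos_neg, Real.cos_pi_div_two]
    · apply lt_of_le_of_ne h5.2
      intro h
      apply c4 i
      rw [h, Real.cos_pi_div_two]

lemma eig_le_one (n : ℕ) : ∀ x ∈ dom n, eig n x ≤ 1 := by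
  intro x hx
  obtain ⟨hx1, hx2, hx3, hx4⟩ := hx
  unfold eig
  have hP0 : 0 ≤ ∏ i : Fin n, Real.cos (x i.succ.succ) :=
    Finset.prod_nonneg (fun i _ => (Real.cos_pos_of_mem_Ioo ⟨(hx4 i).1, (hx4 i).2⟩).le)
  have hP1 : ∏ i : Fin n, Real.cos (x i.succ.succ) ≤ 1 :=
    Finset.prod_le_one (fun i _ => (Real.cos_pos_of_mem_Ioo ⟨(hx4 i).1, (hx4 i).2⟩).le)
      (fun i _ => Real.cos_le_one _)
  have h3 : (√3 : ℝ) ^ 2 = 3 := Real.sq_sqrt (by norm_num)
  have h30 : 0 < √3 := by positivity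
  set s := Real.sin (x 1) with hs
  set c := Real.cos (x 1) with hc
  have hsc : s ^ 2 + c ^ 2 = 1 := Real.sin_sq_add_cos_sq _
  have hs0 : 0 < s := Real.sin_pos_of_pos_of_lt_pi hx1 (by linarith)
  have hcc : -1 ≤ Real.cos (√3 * x 0) := Real.neg_one_le_cos _
  have hc1 : -1 ≤ c := Real.neg_one_le_cos _
  have hkey : s * (1 + c) ≤ 3 * √3 / 4 := by
    apply le_of_sq_le_sq _ (by positivity)
    have e1 : (s * (1 + c)) ^ 2 = (1 - c ^ 2) * (1 + c) ^ 2 := by
      rw [mul_pow]
      have : s ^ 2 = 1 - c ^ 2 := by linarith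
      rw [this]
    have e2 : (3 * √3 / 4) ^ 2 = 27 / 16 := by
      rw [div_pow, mul_pow, h3]; norm_num
    rw [e1, e2]
    nlinarith [mul_nonneg (sq_nonneg (c - 1 / 2)) (by nlinarith [sq_nonneg (c + 3 / 2)] :
      0 ≤ c ^ 2 + 3 * c + 11 / 4)]
  have hle : s * (c - Real.cos (√3 * x 0)) ≤ 3 * √3 / 4 := by
    have : s * (c - Real.cos (√3 * x 0)) ≤ s * (1 + c) :=
      mul_le_mul_of_nonneg_left (by linarith) hs0.le
    linarith
  have hle2 : (4 * √3 / 9) * (s * (c - Real.cos (√3 * x 0))) ≤ 1 := by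
    have h5 : (4 * √3 / 9) * (s * (c - Real.cos (√3 * x 0))) ≤ (4 * √3 / 9) * (3 * √3 / 4) :=
      mul_le_mul_of_nonneg_left hle (by positivity)
    have h6 : (4 * √3 / 9) * (3 * √3 / 4) = 1 := by
      have : (4 * √3 / 9) * (3 * √3 / 4) = (√3 ^ 2) / 3 := by ring
      rw [this, h3]; norm_num
    linarith
  calc (4 * √3 / 9) * (s * (c - Real.cos (√3 * x 0))) * ∏ i : Fin n, Real.cos (x i.succ.succ)
      ≤ 1 * ∏ i : Fin n, Real.cos (x i.succ.succ) := mul_le_mul_of_nonneg_right hle2 hP0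
    _ ≤ 1 := by linarith

end Pool.Agent.LibHelper17.Dirichlet
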